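import Pool.Agent.MP_e1dc65_gt.Defs
import Pool.Agent.MP_e1dc65_gt.a.ClsW
import Mathlib.MeasureTheory.Integral.Prod
import Mathlib.MeasureTheory.Integral.DominatedConvergence
import Mathlib.MeasureTheory.Function.StronglyMeasurable.Inner
import Pool.Agent.MP_e1dc65_gt.fm.Hza
import Pool.Agent.MP_e1dc65_gt.a.Cent
import Pool.Agent.MP_e1dc65_gt.b.Adapt
import Mathlib.Analysis.InnerProductSpace.Spectrum
import Mathlib.MeasureTheory.Function.Jacobian
import Mathlib.Analysis.InnerProductSpace.NormDet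
import Pool.Agent.MP_c8d41b_gt.gf.Stokes
import Pool.Agent.MP_e1dc65_gt.k.Etale
import Pool.Agent.MP_e1dc65_gt.e.aLie
import Mathlib.Analysis.SpecialFunctions.SmoothTransition

-- ======== part 0: formerly Pool.Agent.MP_e1dc65_gt.b.T0
section MrgPart0

/-! PROJECT HC: a bounded homeomorphism of the products with a line gives a topological
h-cobordism. -/

open scoped ContDiff Manifold
open Set Topology

noncomputable section

namespace Pool.Agent.MP_e1dc65_gt.B

/-- the last factor becomes the coordinate `0` -/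
def cons5 : (EuclideanSpace ℝ (Fin 4) × ℝ) ≃L[ℝ] EuclideanSpace ℝ (Fin 5) :=
  LinearEquiv.toContinuousLinearEquiv
    { toFun := fun p => WithLp.toLp 2 (Fin.cons p.2 p.1.ofLp : Fin 5 → ℝ)
      invFun := fun y => (WithLp.toLp 2 (Fin.tail y.ofLp), y 0)
      map_add' := fun p q => by
        ext i
        refine Fin.cases ?_ (fun k => ?_) i <;> simp
      map_smul' := fun c p => by
        ext i
        refine Fin.cases ?_ (fun k => ?_) i <;> simp
      left_inv := fun p => by simp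
      right_inv := fun y => by simp }

@[simp] theorem cons5_zero (p : EuclideanSpace ℝ (Fin 4) × ℝ) : cons5 p 0 = p.2 := rfl

@[simp] theorem cons5_symm_snd (y : EuclideanSpace ℝ (Fin 5)) : (cons5.symm y).2 = y 0 := rfl

/-- `W` is a retract of `M × [0, ∞)` and agrees with it over the open set `V` -/
structure Side (W M : Type) [TopologicalSpace W] [TopologicalSpace M] where
  a : C(W, M)
  s : C(W, ℝ)
  g : C(M × ℝ, W)
  V : Set (M × ℝ)
  op : IsOpen V
  nn : ∀ w, 0 ≤ s w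
  left : ∀ w, g (a w, s w) = w
  right : ∀ p ∈ V, 0 ≤ p.2 → a (g p) = p.1 ∧ s (g p) = p.2
  zero : ∀ m, (m, 0) ∈ V

namespace Side

variable {W M : Type} [TopologicalSpace W] [TopologicalSpace M] (S : Side W M)

/-- the boundary inclusion -/
def inc (m : M) : W := S.g (m, 0)

theorem a_inc (m : M) : S.a (S.inc m) = m := (S.right _ (S.zero m) le_rfl).1

theorem s_inc (m : M) : S.s (S.inc m) = 0 := (S.right _ (S.zero m) le_rfl).2

theorem inc_cont : Continuous S.inc := S.g.continuous.comp (by fun_prop)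

theorem mem_range {w : W} : w ∈ range S.inc ↔ S.s w = 0 :=
  ⟨by rintro ⟨m, rfl⟩; exact S.s_inc m, fun h => ⟨S.a w, by rw [inc, ← h, S.left]⟩⟩

theorem emb : IsEmbedding S.inc :=
  Function.LeftInverse.isEmbedding S.a_inc S.a.continuous S.inc_cont

theorem he : ∃ h : ContinuousMap.HomotopyEquiv M W, ⇑h.toFun = S.inc := by
  refine ⟨⟨⟨S.inc, S.inc_cont⟩, S.a, ?_, ⟨⟨⟨fun p => S.g (S.a p.2, p.1 * S.s p.2), by fun_prop⟩,
    fun w => ?_, fun w => ?_⟩⟩⟩, rfl⟩
  · rw [show S.a.comp ⟨S.inc, S.inc_cont⟩ = ContinuousMap.id M from ContinuousMap.ext S.a_inc]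
  · simp [inc]
  · simp [S.left]

/-- the half space chart made from a chart of `M` -/
def chart (e : OpenPartialHomeomorph M (EuclideanSpace ℝ (Fin 4))) :
    OpenPartialHomeomorph W (EuclideanHalfSpace 5) where
  toFun w := ⟨cons5 (e (S.a w), S.s w), S.nn w⟩
  invFun y := S.g (e.symm (cons5.symm y.1).1, y.1 0)
  source := {w | S.a w ∈ e.source ∧ (S.a w, S.s w) ∈ S.V}
  target := {y | (cons5.symm y.1).1 ∈ e.target ∧ (e.symm (cons5.symm y.1).1, y.1 0) ∈ S.V}
  map_source' w hw := by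
    simp only [mem_ofPred_eq, ContinuousLinearEquiv.symm_apply_apply, cons5_zero, e.left_inv hw.1]
    exact ⟨e.map_source hw.1, hw.2⟩
  map_target' y hy := by
    obtain ⟨h1, h2⟩ := S.right _ hy.2 y.2
    simp only [mem_ofPred_eq, h1, h2]
    exact ⟨e.map_target hy.1, hy.2⟩
  left_inv' w hw := by
    simp only [ContinuousLinearEquiv.symm_apply_apply, cons5_zero, e.left_inv hw.1, S.left]
  right_inv' y hy := by
    obtain ⟨h1, h2⟩ := S.right _ hy.2 y.2
    refine EuclideanHalfSpace.ext _ _ ?_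
    simp only [h1, h2, e.right_inv hy.1]
    exact cons5.apply_symm_apply y.1
  open_source := (e.open_source.preimage S.a.continuous).inter (S.op.preimage (by fun_prop))
  open_target := by
    have c : Continuous fun y : EuclideanHalfSpace 5 => cons5.symm y.1 :=
      cons5.symm.continuous.comp continuous_subtype_val
    exact ContinuousOn.isOpen_inter_preimage (s := {y : EuclideanHalfSpace 5 |
      (cons5.symm y.1).1 ∈ e.target}) (f := fun y => (e.symm (cons5.symm y.1).1, (cons5.symm y.1).2))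
      ((e.continuousOn_symm.comp c.fst.continuousOn fun _ h => h).prodMk c.snd.continuousOn)
      (e.open_target.preimage c.fst) S.op
  continuousOn_toFun := by
    rw [IsEmbedding.subtypeVal.continuousOn_iff]
    exact cons5.continuous.comp_continuousOn
      ((e.continuousOn.comp S.a.continuous.continuousOn fun _ h => h.1).prodMk
        S.s.continuous.continuousOn)
  continuousOn_invFun := by
    have c : Continuous fun y : EuclideanHalfSpace 5 => cons5.symm y.1 :=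
      cons5.symm.continuous.comp continuous_subtype_val
    exact S.g.continuous.comp_continuousOn
      ((e.continuousOn_symm.comp c.fst.continuousOn fun _ h => h.1).prodMk c.snd.continuousOn)

end Side

variable {W : Type} [TopologicalSpace W] {M N : Closed4}

open Classical in
/-- the atlas made from two sides -/
@[reducible] def twoCharts (S : Side W M.carrier) (S' : Side W N.carrier)
    (h : ∀ w, (S.a w, S.s w) ∉ S.V ↔ S'.s w = 0) : ChartedSpace (EuclideanHalfSpace 5) W where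
  atlas := S.chart '' atlas _ M.carrier ∪ S'.chart '' atlas _ N.carrier
  chartAt w := if (S.a w, S.s w) ∈ S.V then S.chart (chartAt _ (S.a w))
    else S'.chart (chartAt _ (S'.a w))
  mem_chart_source w := by
    split_ifs with k
    · exact ⟨mem_chart_source _ _, k⟩
    · exact ⟨mem_chart_source _ _, by rw [(h w).1 k]; exact S'.zero _⟩
  chart_mem_atlas w := by
    split_ifs with k
    · exact Or.inl ⟨_, chart_mem_atlas _ _, rfl⟩
    · exact Or.inr ⟨_, chart_mem_atlas _ _, rfl⟩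

theorem hcob [T2Space W] [CompactSpace W] (S : Side W M.carrier) (S' : Side W N.carrier)
    (h : ∀ w, (S.a w, S.s w) ∉ S.V ↔ S'.s w = 0) :
    IsHCob M N (@Compact5.mk W _ _ _ (twoCharts S S' h)) S.inc S'.inc := by
  refine ⟨S.emb, S'.emb, disjoint_left.2 fun w h1 h2 => ?_, ?_, S.he, S'.he⟩
  · exact (h w).2 (S'.mem_range.1 h2) (by rw [S.mem_range.1 h1]; exact S.zero _)
  · let _ := twoCharts S S' h
    ext w
    change _ ↔ (𝓡∂ 5) (chartAt (EuclideanHalfSpace 5) w w) ∈ frontier (range (𝓡∂ 5))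
    rw [frontier_range_modelWithCornersEuclideanHalfSpace, mem_union, S.mem_range, S'.mem_range]
    by_cases k : (S.a w, S.s w) ∈ S.V
    · rw [show chartAt (EuclideanHalfSpace 5) w = _ from if_pos k]
      exact ⟨fun e => (e.resolve_right fun e => (h w).2 e k).symm, fun e => Or.inl e.symm⟩
    · rw [show chartAt (EuclideanHalfSpace 5) w = _ from if_neg k]
      exact ⟨fun _ => ((h w).1 k).symm, fun e => Or.inr e.symm⟩

section Main

variable (Th : M.carrier × ℝ ≃ₜ N.carrier × ℝ) (C : ℝ)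

/-- the region between the two levels -/
def Reg : Set (N.carrier × ℝ) := {q | 0 ≤ (Th.symm q).2 ∧ q.2 ≤ C + 1}

variable {Th C} (hC : ∀ p, |(Th p).2 - p.2| ≤ C)

include hC

theorem le1 (q : N.carrier × ℝ) : q.2 - C ≤ (Th.symm q).2 ∧ (Th.symm q).2 ≤ q.2 + C := by
  have := abs_le.1 (hC (Th.symm q))
  rw [Th.apply_symm_apply] at this
  constructor <;> linarith [this.1, this.2]

theorem reg_cpt : CompactSpace (Reg Th C) := by
  refine isCompact_iff_compactSpace.1 (((isCompact_univ (X := N.carrier)).prod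
    (isCompact_Icc (a := -C) (b := C + 1))).of_isClosed_subset ?_ fun q hq => ⟨trivial, ?_, hq.2⟩)
  · exact (isClosed_le continuous_const (continuous_snd.comp Th.symm.continuous)).inter
      (isClosed_le continuous_snd continuous_const)
  · linarith [(le1 hC q).2, hq.1]

theorem memM (p : M.carrier × ℝ) :
    ((Th (p.1, max p.2 0)).1, min (Th (p.1, max p.2 0)).2 (C + 1)) ∈ Reg Th C := by
  refine ⟨?_, min_le_right _ _⟩
  rcases le_total (Th (p.1, max p.2 0)).2 (C + 1) with k | k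
  · rw [min_eq_left k]; simp
  · rw [min_eq_right k]; linarith [(le1 hC ((Th (p.1, max p.2 0)).1, C + 1)).1]

theorem memN (p : N.carrier × ℝ) : Th ((Th.symm (p.1, C + 1 - max p.2 0)).1,
    max (Th.symm (p.1, C + 1 - max p.2 0)).2 0) ∈ Reg Th C := by
  refine ⟨by simp, ?_⟩
  rcases le_total (Th.symm (p.1, C + 1 - max p.2 0)).2 0 with k | k
  · rw [max_eq_right k]
    linarith [(abs_le.1 (hC ((Th.symm (p.1, C + 1 - max p.2 0)).1, 0))).2]
  · rw [max_eq_left k]; simp

/-- the side of `M` -/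
def sideM : Side (Reg Th C) M.carrier where
  a := ⟨fun w => (Th.symm w.1).1, by fun_prop⟩
  s := ⟨fun w => (Th.symm w.1).2, by fun_prop⟩
  g := ⟨fun p => ⟨_, memM hC p⟩, Continuous.subtype_mk (by fun_prop) (memM hC)⟩
  V := {p | (Th p).2 < C + 1}
  op := isOpen_lt (by fun_prop) continuous_const
  nn w := w.2.1
  left w := Subtype.ext (by simp [max_eq_left w.2.1, min_eq_left w.2.2])
  right p hp h0 := by
    have hp' : (Th p).2 < C + 1 := hp
    simp [max_eq_left h0, min_eq_left hp'.le]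
  zero m := by
    have := (abs_le.1 (hC (m, 0))).2
    simp only [mem_ofPred_eq]
    linarith

/-- the side of `N` -/
def sideN : Side (Reg Th C) N.carrier where
  a := ⟨fun w => w.1.1, by fun_prop⟩
  s := ⟨fun w => C + 1 - w.1.2, by fun_prop⟩
  g := ⟨fun p => ⟨_, memN hC p⟩, Continuous.subtype_mk (by fun_prop) (memN hC)⟩
  V := {p | 0 < (Th.symm (p.1, C + 1 - p.2)).2}
  op := isOpen_lt continuous_const (by fun_prop)
  nn w := sub_nonneg.2 w.2.2
  left w := Subtype.ext (by simp [max_eq_left (sub_nonneg.2 w.2.2), max_eq_left w.2.1])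
  right p hp h0 := by
    have hp' : 0 < (Th.symm (p.1, C + 1 - p.2)).2 := hp
    simp [max_eq_left h0, max_eq_left hp'.le]
  zero m := by
    have := (le1 hC (m, C + 1 - 0)).1
    simp only [mem_ofPred_eq]
    linarith

theorem sides (w : Reg Th C) :
    ((sideM hC).a w, (sideM hC).s w) ∉ (sideM hC).V ↔ (sideN hC).s w = 0 := by
  have := w.2.2
  simp only [sideM, sideN, ContinuousMap.coe_mk, mem_ofPred_eq, Prod.mk.eta,
    Homeomorph.apply_symm_apply, not_lt]
  constructor <;> intro <;> linarith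

end Main

/-- T0 -/
theorem topHCob (M N : Closed4) (Th : M.carrier × ℝ ≃ₜ N.carrier × ℝ) (C : ℝ)
    (hC : ∀ p, |(Th p).2 - p.2| ≤ C) : TopHCob M N :=
  haveI := reg_cpt hC
  ⟨_, _, _, hcob (sideM hC) (sideN hC) (sides hC)⟩

end Pool.Agent.MP_e1dc65_gt.B

end
end MrgPart0

-- ======== part 1: formerly Pool.Agent.MP_e1dc65_gt.a.Ai2
section MrgPart1

/-! PROJECT HC, part A: the approximate identity tested against a function of the pole. -/

set_option maxSynthPendingDepth 3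

open scoped Quaternion ContDiff Topology RealInnerProductSpace
open Set Filter MeasureTheory Metric

noncomputable section

namespace Pool.Agent.MP_e1dc65_gt.A

namespace AI2

theorem hk_neg (t : ℝ) (z : ℍ) : hk t (-z) = hk t z := by simp [hk]

theorem hk_far {t δ : ℝ} (ht : 0 < t) (hδ : 0 < δ) {z : ℍ} (hz : δ ≤ ‖z‖) :
    hk t z ≤ 32 / δ ^ 2 * t * hk (2 * t) z := by
  have e : hk t z = 4 * Real.exp (-(‖z‖ ^ 2 / (8 * t))) * hk (2 * t) z := by
    have : -‖z‖ ^ 2 / (4 * t) = -(‖z‖ ^ 2 / (8 * t)) + -‖z‖ ^ 2 / (4 * (2 * t)) := by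
      field_simp; ring
    have hp := Real.pi_pos
    simp only [hk]
    rw [this, Real.exp_add]
    field_simp
    ring
  rw [e]
  refine mul_le_mul_of_nonneg_right ?_ (hk_pos (by positivity) z).le
  have h1 : δ ^ 2 / (8 * t) ≤ Real.exp (‖z‖ ^ 2 / (8 * t)) := by
    have h2 : δ ^ 2 / (8 * t) ≤ ‖z‖ ^ 2 / (8 * t) := by gcongr
    linarith [Real.add_one_le_exp (‖z‖ ^ 2 / (8 * t))]
  have h3 : Real.exp (-(‖z‖ ^ 2 / (8 * t))) ≤ (δ ^ 2 / (8 * t))⁻¹ := by
    rw [Real.exp_neg]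
    exact inv_anti₀ (by positivity) h1
  calc 4 * Real.exp (-(‖z‖ ^ 2 / (8 * t))) ≤ 4 * (δ ^ 2 / (8 * t))⁻¹ := by gcongr
    _ = 32 / δ ^ 2 * t := by field_simp; ring

theorem small (h : AiStmt) {z : E4 → ℍ} {x : E4} {S : Set E4} {c M t : ℝ} (hc : 0 < c)
    (ht : 0 < t) (hS : MeasurableSet S) (hz : ContinuousOn z S)
    (hl : ∀ y ∈ S, c * ‖y - x‖ ≤ ‖z y‖) (hM : 0 ≤ M) {f : E4 → ℝ}
    (hf : ∀ y ∈ S, ‖f y‖ ≤ M * hk t (z y)) : ‖∫ y in S, f y‖ ≤ M * (c ^ 4)⁻¹ := by
  obtain ⟨h1, h2⟩ := h.1 z x S c t hc ht hS hz hl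
  refine (norm_integral_le_of_norm_le (h1.const_mul M) ?_).trans ?_
  · filter_upwards [ae_restrict_mem hS] with y hy using hf y hy
  · rw [integral_const_mul]
    exact mul_le_mul_of_nonneg_left h2 hM

variable {θ' : E4 → E4 →L[ℝ] ℍ} {S : Set E4} {c : ℝ}

theorem cont_z (hθ : ContDiff ℝ ∞ θ') (x : E4) : Continuous fun y => θ' y (x - y) :=
  hθ.continuous.clm_apply (continuous_const.sub continuous_id)

theorem low_z (hl : ∀ y ∈ S, ∀ v, c * ‖v‖ ≤ ‖θ' y v‖) (x : E4) :
    ∀ y ∈ S, c * ‖y - x‖ ≤ ‖θ' y (x - y)‖ := fun y hy => by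
  rw [norm_sub_rev]; exact hl y hy _

theorem tend0 {f : ℝ → ℝ} {M : ℝ} (hf : ∀ t ∈ Ioc (0 : ℝ) 1, ‖f t‖ ≤ M * √t) :
    Tendsto f (𝓝[>] 0) (𝓝 0) := by
  refine squeeze_zero_norm' (a := fun t => M * √t) ?_ ?_
  · filter_upwards [Ioc_mem_nhdsGT one_pos] with t ht using hf t ht
  · have : Continuous fun t : ℝ => M * √t := by fun_prop
    simpa using (this.tendsto 0).mono_left nhdsWithin_le_nhds

/-- the main term for a fixed point `x` -/
theorem main1 (h : AiStmt) (hθ : ContDiff ℝ ∞ θ') (hS : IsCompact S) (hc : 0 < c)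
    (hl : ∀ y ∈ S, ∀ v, c * ‖v‖ ≤ ‖θ' y v‖) {a : E4 → ℝ} (ha : Continuous a) {T : Set E4}
    (hT : IsClosed T) (hTS : T ⊆ interior S) (h0 : ∀ y ∉ T, a y = 0) (x : E4) :
    Tendsto (fun t => ∫ y in S, hk t (θ' y (x - y)) * a y) (𝓝[>] 0)
      (𝓝 ((jac (θ' x))⁻¹ * a x)) := by
  by_cases hx : x ∈ interior S
  · have hd : HasFDerivAt (fun y => θ' y (y - x)) (θ' x) x := by
      have h1 := ((hθ.differentiable (by simp)) x).hasFDerivAt.clm_apply
        ((hasFDerivAt_id x).sub_const x)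
      simpa using h1
    have h2 := h.2 ℝ (fun y => θ' y (y - x)) x (θ' x) S c a hc hS (mem_interior_iff_mem_nhds.1 hx)
      (hθ.continuous.clm_apply (continuous_id.sub continuous_const)).continuousOn ha.continuousOn
      (by simp) hd (fun y hy => hl y hy _)
    refine h2.congr fun t => ?_
    congr 1
    funext y
    rw [← hk_neg, ← map_neg, neg_sub, smul_eq_mul]
  · have hxT : x ∉ T := fun h' => hx (hTS h')
    rw [h0 x hxT, mul_zero]
    obtain ⟨δ, hδ, hb⟩ := Metric.isOpen_iff.1 hT.isOpen_compl x hxT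
    obtain ⟨B, hB⟩ := hS.exists_bound_of_continuousOn ha.continuousOn
    refine tend0 (M := 32 / (c * δ) ^ 2 * |B| * (c ^ 4)⁻¹) fun t ht => ?_
    have ht0 := ht.1
    have h1 := small h (M := 32 / (c * δ) ^ 2 * t * |B|) hc (show 0 < 2 * t by positivity)
      hS.measurableSet (cont_z hθ x).continuousOn (low_z hl x) (by positivity)
      (f := fun y => hk t (θ' y (x - y)) * a y) fun y hy => by
        have hp := (hk_pos (show 0 < 2 * t by positivity) (θ' y (x - y))).le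
        by_cases hy' : y ∈ T
        · have h3 : δ ≤ ‖y - x‖ := by
            by_contra h4
            exact hb (mem_ball_iff_norm.2 (not_le.1 h4)) hy'
          have h4 : c * δ ≤ ‖θ' y (x - y)‖ :=
            (mul_le_mul_of_nonneg_left h3 hc.le).trans (low_z hl x y hy)
          have h5 := hk_far ht0 (mul_pos hc hδ) h4
          rw [norm_mul, Real.norm_of_nonneg (hk_pos ht0 _).le]
          calc hk t (θ' y (x - y)) * ‖a y‖
              ≤ 32 / (c * δ) ^ 2 * t * hk (2 * t) (θ' y (x - y)) * |B| :=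
                mul_le_mul h5 ((hB y hy).trans (le_abs_self B)) (norm_nonneg _) (by positivity)
            _ = _ := by ring
        · simp only [h0 y hy', mul_zero, norm_zero]
          positivity
    refine h1.trans ?_
    have h6 : t ≤ √t := Real.le_sqrt_of_sq_le (by nlinarith [ht.2])
    calc 32 / (c * δ) ^ 2 * t * |B| * (c ^ 4)⁻¹ ≤ 32 / (c * δ) ^ 2 * √t * |B| * (c ^ 4)⁻¹ := by
          gcongr
      _ = _ := by ring

variable {R : ℝ → E4 × E4 → W →L[ℝ] W} {ψ u : E4 → W} {K : Set E4} {M B : ℝ}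

theorem cont_zz (hθ : ContDiff ℝ ∞ θ') : ContDiff ℝ ∞ fun p : E4 × E4 => θ' p.1 (p.2 - p.1) :=
  (hθ.comp contDiff_fst).clm_apply (contDiff_snd.sub contDiff_fst)

theorem err (h : AiStmt) (hθ : ContDiff ℝ ∞ θ') (hS : IsCompact S) (hc : 0 < c)
    (hl : ∀ y ∈ S, ∀ v, c * ‖v‖ ≤ ‖θ' y v‖) (hM : 0 ≤ M) (hB : 0 ≤ B) (hψ : ∀ y ∈ S, ‖ψ y‖ ≤ B)
    {t : ℝ} (ht : 0 < t) {x : E4}
    (hR : ∀ y ∈ S, ‖R t (y, x)‖ ≤ M * √t * hk (2 * t) (θ' y (x - y))) (w : W) :
    ‖∫ y in S, ⟪w, R t (y, x) (ψ y)⟫‖ ≤ ‖w‖ * (M * B * (c ^ 4)⁻¹) * √t := by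
  have h1 := small h (M := ‖w‖ * M * B * √t) hc (show 0 < 2 * t by positivity)
    hS.measurableSet (cont_z hθ x).continuousOn (low_z hl x) (by positivity)
    (f := fun y => ⟪w, R t (y, x) (ψ y)⟫) fun y hy => by
      have hp := (hk_pos (show 0 < 2 * t by positivity) (θ' y (x - y))).le
      calc ‖⟪w, R t (y, x) (ψ y)⟫‖ ≤ ‖w‖ * ‖R t (y, x) (ψ y)‖ := norm_inner_le_norm _ _
        _ ≤ ‖w‖ * (‖R t (y, x)‖ * ‖ψ y‖) := by gcongr; exact (R t (y, x)).le_opNorm _
        _ ≤ ‖w‖ * (M * √t * hk (2 * t) (θ' y (x - y)) * B) := by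
          gcongr
          exacts [hR y hy, hψ y hy]
        _ = _ := by ring
  exact h1.trans (le_of_eq (by ring))

theorem mainb (h : AiStmt) (hθ : ContDiff ℝ ∞ θ') (hS : IsCompact S) (hc : 0 < c)
    (hl : ∀ y ∈ S, ∀ v, c * ‖v‖ ≤ ‖θ' y v‖) (hB : 0 ≤ B) (hψ : ∀ y ∈ S, ‖ψ y‖ ≤ B)
    {t : ℝ} (ht : 0 < t) (x : E4) (w : W) :
    ‖∫ y in S, hk t (θ' y (x - y)) * ⟪w, ψ y⟫‖ ≤ ‖w‖ * (B * (c ^ 4)⁻¹) := by
  have h1 := small h (M := ‖w‖ * B) hc ht
    hS.measurableSet (cont_z hθ x).continuousOn (low_z hl x) (by positivity)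
    (f := fun y => hk t (θ' y (x - y)) * ⟪w, ψ y⟫) fun y hy => by
      have hp := (hk_pos ht (θ' y (x - y))).le
      rw [norm_mul, Real.norm_of_nonneg hp, mul_comm]
      refine mul_le_mul_of_nonneg_right ((norm_inner_le_norm _ _).trans ?_) hp
      exact mul_le_mul_of_nonneg_left (hψ y hy) (norm_nonneg _)
  exact h1.trans (le_of_eq (by ring))

variable {k : ℝ → E4 × E4 → W →L[ℝ] W}

theorem split (hθ : ContDiff ℝ ∞ θ') (hS : IsCompact S) (hψ : Continuous ψ)
    (h0 : ∀ y ∉ S, ψ y = 0) {t : ℝ} (hR : Continuous (R t))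
    (e : ∀ p, k t p = R t p + hk t (θ' p.1 (p.2 - p.1)) • (1 : W →L[ℝ] W)) (x : E4) (w : W) :
    ∫ y, ⟪w, k t (y, x) (ψ y)⟫ =
      (∫ y in S, hk t (θ' y (x - y)) * ⟪w, ψ y⟫) + ∫ y in S, ⟪w, R t (y, x) (ψ y)⟫ := by
  have c1 : Continuous fun y => hk t (θ' y (x - y)) * ⟪w, ψ y⟫ :=
    ((contDiff_hk t).continuous.comp (cont_z hθ x)).mul (continuous_const.inner hψ)
  have c2 : Continuous fun y => ⟪w, R t (y, x) (ψ y)⟫ :=
    continuous_const.inner ((hR.comp (Continuous.prodMk_left x)).clm_apply hψ)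
  rw [← integral_add (c1.continuousOn.integrableOn_compact hS)
    (c2.continuousOn.integrableOn_compact hS),
    ← setIntegral_eq_integral_of_forall_compl_eq_zero (s := S) fun y hy => by simp [h0 y hy]]
  congr 1
  funext y
  rw [e, add_apply, inner_add_right, smul_apply,
    one_apply_eq_self, real_inner_smul_right, add_comm]

theorem joint (hS : IsCompact S) (hK : IsCompact K) (hψ : Continuous ψ)
    (h0 : ∀ y ∉ S, ψ y = 0) (hu : Integrable u) (hu0 : ∀ x ∉ K, u x = 0) {t : ℝ}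
    (hk' : Continuous (k t)) :
    Integrable (Function.uncurry fun y x => ⟪u x, k t (y, x) (ψ y)⟫)
      ((volume : Measure E4).prod volume) := by
  obtain ⟨C, hC⟩ := (hS.prod hK).exists_bound_of_continuousOn hk'.continuousOn
  have hi : Integrable ψ := hψ.integrable_of_hasCompactSupport (HasCompactSupport.intro hS h0)
  refine ((hi.norm.mul_prod hu.norm).const_mul |C|).mono' ?_ (Eventually.of_forall fun p => ?_)
  · exact hu.aestronglyMeasurable.comp_snd.inner
      (hk'.clm_apply (hψ.comp continuous_fst)).aestronglyMeasurable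
  · show ‖⟪u p.2, k t p (ψ p.1)⟫‖ ≤ _
    by_cases h1 : p.1 ∈ S
    · by_cases h2 : p.2 ∈ K
      · calc ‖⟪u p.2, k t p (ψ p.1)⟫‖ ≤ ‖u p.2‖ * ‖k t p (ψ p.1)‖ := norm_inner_le_norm _ _
          _ ≤ ‖u p.2‖ * (‖k t p‖ * ‖ψ p.1‖) := by gcongr; exact (k t p).le_opNorm _
          _ ≤ ‖u p.2‖ * (|C| * ‖ψ p.1‖) := by
            gcongr
            exact (hC p ⟨h1, h2⟩).trans (le_abs_self C)
          _ = _ := by ring
      · simp [hu0 _ h2]
    · simp [h0 _ h1]

end AI2

open AI2 in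
theorem ai2 (h : AiStmt) : Ai2Stmt := by
  intro θ' S K c k u ψ hθ hS hK hc hl hW hu hu0 hψ hsup
  have hz := cont_zz hθ
  obtain ⟨M, hM, hb⟩ := hW.bound hz (hS.prod hK)
  obtain ⟨B, hB⟩ := hS.exists_bound_of_continuousOn hψ.continuousOn
  have hB' : ∀ y ∈ S, ‖ψ y‖ ≤ |B| := fun y hy => (hB y hy).trans (le_abs_self B)
  have hT : ∀ y ∉ tsupport ψ, ψ y = 0 := fun y hy => image_eq_zero_of_notMem_tsupport hy
  have h0 : ∀ y ∉ S, ψ y = 0 := fun y hy => hT y fun h' => hy (interior_subset (hsup h'))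
  set R : ℝ → E4 × E4 → W →L[ℝ] W := fun t p =>
    k t p - hk t (θ' p.1 (p.2 - p.1)) • (1 : W →L[ℝ] W) with hR
  have e : ∀ t p, k t p = R t p + hk t (θ' p.1 (p.2 - p.1)) • (1 : W →L[ℝ] W) := fun t p => by
    simp only [hR, sub_add_cancel]
  have cR : ∀ t, 0 < t → Continuous (R t) := fun t ht => (hW.smooth hz ht).continuous
  have ck : ∀ t, 0 < t → Continuous (k t) := fun t ht => by
    rw [show k t = fun p => R t p + hk t (θ' p.1 (p.2 - p.1)) • (1 : W →L[ℝ] W) from funext (e t)]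
    exact (cR t ht).add (((contDiff_hk t).continuous.comp hz.continuous).smul continuous_const)
  have hJ := fun t ht => joint (k := k) (t := t) hS hK hψ h0 hu hu0 (ck t ht)
  have hE : ∀ t ∈ Ioc (0 : ℝ) 1, ∀ x ∈ K, ‖∫ y in S, ⟪u x, R t (y, x) (ψ y)⟫‖ ≤
      ‖u x‖ * (M * |B| * (c ^ 4)⁻¹) * √t := fun t ht x hx =>
    err h hθ hS hc hl hM (abs_nonneg B) hB' ht.1
      (fun y hy => by simpa only [zpow_one] using hb t ht (y, x) ⟨hy, hx⟩) _
  have key : Tendsto (fun t => ∫ x, ∫ y, ⟪u x, k t (y, x) (ψ y)⟫) (𝓝[>] 0)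
      (𝓝 (∫ y, (jac (θ' y))⁻¹ * ⟪u y, ψ y⟫)) := by
    refine tendsto_integral_filter_of_dominated_convergence
      (fun x => ‖u x‖ * (|B| * (c ^ 4)⁻¹ + M * |B| * (c ^ 4)⁻¹)) ?_ ?_ (hu.norm.mul_const _)
      (Eventually.of_forall fun x => ?_)
    · filter_upwards [self_mem_nhdsWithin] with t ht
      exact (hJ t ht).integral_prod_right.aestronglyMeasurable
    · filter_upwards [Ioc_mem_nhdsGT one_pos] with t ht
      refine Eventually.of_forall fun x => ?_
      by_cases hx : x ∈ K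
      · rw [split hθ hS hψ h0 (cR t ht.1) (e t), mul_add]
        refine (norm_add_le _ _).trans (add_le_add
          (mainb h hθ hS hc hl (abs_nonneg B) hB' ht.1 x _) ((hE t ht x hx).trans ?_))
        exact mul_le_of_le_one_right (by positivity) (Real.sqrt_le_one.2 ht.2)
      · simp [hu0 x hx]
    · by_cases hx : x ∈ K
      · have h1 := (main1 h hθ hS hc hl (a := fun y => ⟪u x, ψ y⟫) (continuous_const.inner hψ)
          (isClosed_tsupport ψ) hsup (fun y hy => by simp [hT y hy]) x).add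
          (tend0 fun t ht => hE t ht x hx)
        rw [add_zero] at h1
        refine h1.congr' ?_
        filter_upwards [self_mem_nhdsWithin] with t ht
        exact (split hθ hS hψ h0 (cR t ht) (e t) x (u x)).symm
      · simp [hu0 x hx]
  refine key.congr' ?_
  filter_upwards [self_mem_nhdsWithin] with t ht
  exact (integral_integral_swap (hJ t ht)).symm

end Pool.Agent.MP_e1dc65_gt.A

end
end MrgPart1

-- ======== part 2: formerly Pool.Agent.MP_e1dc65_gt.a.Dirac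
section MrgPart2

/-! PROJECT HC, part A: theorem (D) on manifolds; Stokes' theorem on a closed manifold. -/

set_option maxSynthPendingDepth 3

open scoped Quaternion ContDiff Topology
open Set Filter MeasureTheory Pool.Agent.MP_c8d41b_gt.GF

noncomputable section

namespace Pool.Agent.MP_e1dc65_gt.A

theorem stk (h : IntMStmt) : StkStmt := fun X _ o β ho hβ =>
  (h E4 X 4 o ho).stokes β (.of_compact isCompact_univ subset_rfl (fun x _ => (hβ x trivial).1)
    fun _ hx => (hx trivial).elim)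

theorem diracOf (h1 : MetStmt) (h2 : RedStmt) (h3 : GeoStmt) (h4 : IntbStmt) (h5 : ConStmt)
    (h6 : CWStmt) (h7 : DthStmt) : DiracStmt := by
  intro C X _ o w s sp Γ S ho hI hw
  obtain ⟨V₀, θ, hA₀⟩ := h1 X o s ho hI.sm hI.inv
  obtain ⟨V, p, q, P, Q, hA, hS⟩ := h2 C X o s sp Γ S V₀ θ hI hA₀
  obtain ⟨G, ξ, hB, hU, hθ, hp, hq⟩ := h3 X o s V θ p q hA hS.rot
  obtain ⟨w₀, w1, w2, w3⟩ := h5 X o G hB
  rw [h6 E4 X o w w₀ ho hw w1, (h4 X o G ho hB w₀ w2).2]
  simp only [w3, integral_const_mul]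
  have sm : ∀ i j, ∀ x ∈ G.U i, s x ∈ G.U j → ContDiffAt ℝ ∞ (G.rd s i j) (G.ch i x) :=
    fun i j x hx hy => by
      have e : (G.ch i).symm (G.ch i x) = x := (G.ch i).left_inv hx
      exact smAt_vs.1 ((((hB.oe' i).sm _ ((G.ch i).map_source hx)).trans (hI.sm _ trivial)).trans
        ((hB.oe j).sm _ (by rw [e]; exact hy)))
  refine mul_ne_zero (by norm_num) (h7 (spc X) G ⟨hB.ok, fun _ => ⟨fun i j k x hx => ?_,
    fun i j k x hx => ?_, fun i j => ?_⟩⟩ s (fun i j => P (ξ i) (ξ j)) (fun i j => Q (ξ i) (ξ j)) S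
    ⟨hI.sm.cont, hI.inv, sm, fun i j x hx hy => (hS.Rot _ _ x (hU i hx) (hU j hy)).1,
      fun i j x hx hy => (hS.Rot _ _ x (hU i hx) (hU j hy)).2.1, fun i j x hx hy v => ?_,
      fun i j => (hS.Cont _ _).mono fun x hx => ⟨hU i hx.1, hU j hx.2⟩,
      fun i i' j j' x hx hy => ?_, fun i i' j j' x hx hy => ?_,
      fun i j x hx hy => (hS.sq _ _ x (hU i hx) (hU j hy)).1,
      fun i j x hx hy => (hS.sq _ _ x (hU i hx) (hU j hy)).2, hI.fix, hI.card,
      fun x hx i hi => hS.val x hx _ (hU i hi)⟩)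
  · simp only [hp]
    exact (hS.coc _ _ _ x ⟨⟨hU i hx.1.1, hU j hx.1.2⟩, hU k hx.2⟩).1
  · simp only [hq]
    exact (hS.coc _ _ _ x ⟨⟨hU i hx.1.1, hU j hx.1.2⟩, hU k hx.2⟩).2
  · rw [hp]
    exact (hS.cont _ _).mono fun x hx => ⟨hU i hx.1, hU j hx.2⟩
  · obtain ⟨L, hL⟩ := ((hB.oe i).ld x hx).inv
    obtain ⟨u, rfl⟩ := L.surjective v
    have e1 := Df_vcomp ((hB.oe i).sm x hx) (sm i j x hx hy)
    have e2 := Df_comp (hI.sm x trivial) ((hB.oe j).sm _ hy)
    have e3 : (fun z : X => G.rd s i j (G.ch i z)) =ᶠ[𝓝 x] fun z => G.ch j (s z) := by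
      filter_upwards [(G.ch i).open_source.mem_nhds hx] with z hz
      simp only [Geo.rd, (G.ch i).left_inv hz]
    have e4 := (hS.Rot _ _ x (hU i hx) (hU j hy)).2.2 u
    rw [← hθ j _ hy, ← hθ i _ hx] at e4
    have e5 : L u = Df X (vs E4) (G.ch i) x u := by rw [← hL]; rfl
    have e6 := congrArg (fun T : E4 →L[ℝ] E4 => T u)
      (e1.symm.trans ((Df_congr (Y := vs E4) e3).trans e2))
    simp only [ContinuousLinearMap.comp_apply] at e6
    rw [e5, e6]
    exact e4
  · simp only [hp]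
    exact (hS.nat _ _ _ _ x ⟨hU i hx.1, hU i' hx.2⟩ ⟨hU j hy.1, hU j' hy.2⟩).1
  · simp only [hq]
    exact (hS.nat _ _ _ _ x ⟨hU i hx.1, hU i' hx.2⟩ ⟨hU j hy.1, hU j' hy.2⟩).2

end Pool.Agent.MP_e1dc65_gt.A

end
end MrgPart2

-- ======== part 3: formerly Pool.Agent.MP_e1dc65_gt.a.Eig
section MrgPart3

/-! PROJECT HC, part A, row EIG: the eigenfunction expansion from the compact resolvent. -/

set_option maxSynthPendingDepth 3

open scoped Topology RealInnerProductSpace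
open Set Filter

noncomputable section

namespace Pool.Agent.MP_e1dc65_gt.A

namespace EigS

variable {S H : Type} [AddCommGroup S] [Module ℝ S] [NormedAddCommGroup H] [InnerProductSpace ℝ H]

/-- a vector orthogonal to a dense range vanishes -/
theorem zero_of {j : S →ₗ[ℝ] H} (hd : DenseRange j) {f : H} (h : ∀ φ, ⟪f, j φ⟫ = 0) : f = 0 := by
  have h1 : ∀ g : H, ⟪f, g⟫ = 0 := by
    intro g
    refine hd.induction_on g (p := fun g => ⟪f, g⟫ = 0) ?_ h
    exact isClosed_eq (continuous_const.inner continuous_id) continuous_const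
  exact inner_self_eq_zero.1 (h1 f)

/-- an eigenvector of the resolvent is a smooth eigenfunction -/
theorem smooth {j : S →ₗ[ℝ] H} {D : S →ₗ[ℝ] S} (hE : Ell j D) {T : H →L[ℝ] H}
    (hT : ∀ f φ, ⟪T f, j (φ + D (D φ))⟫ = ⟪f, j φ⟫) {μ : ℝ} {v : H} (hv : T v = μ • v)
    (h0 : v ≠ 0) : ∃ φ, j φ = v ∧ D (D φ) = (μ⁻¹ - 1) • φ := by
  have hμ : μ ≠ 0 := by
    rintro rfl
    refine h0 (zero_of hE.dense fun φ => ?_)
    rw [← hT, hv, zero_smul, inner_zero_left]
  have key : ∀ ψ, ⟪v, j (D (D ψ))⟫ = (μ⁻¹ - 1) * ⟪v, j ψ⟫ := by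
    intro ψ
    have h1 := hT v ψ
    rw [hv, map_add, real_inner_smul_left, inner_add_right] at h1
    field_simp
    linarith
  obtain ⟨φ, hφ⟩ := hE.reg (fun n => (μ⁻¹ - 1) ^ n • v) (fun n ψ => by
    rw [real_inner_smul_left, real_inner_smul_left, key, pow_succ, mul_assoc])
  rw [pow_zero, one_smul] at hφ
  refine ⟨φ, hφ, hE.inj ?_⟩
  rw [← sub_eq_zero]
  refine zero_of hE.dense fun ψ => ?_
  rw [inner_sub_left, hE.sym, hE.sym, hφ, key, map_smul, real_inner_smul_left, hφ, sub_self]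

theorem pow_eig {L : S →ₗ[ℝ] S} {φ : S} {c : ℝ} (h : L φ = c • φ) (i : ℕ) :
    (L ^ i) φ = c ^ i • φ := by
  induction i with
  | zero => simp
  | succ i ih => rw [pow_succ', Module.End.mul_apply, ih, map_smul, h, smul_smul, pow_succ]

theorem norm_sum_le {m : ℕ} {v : Fin m → H} (hv : Orthonormal ℝ v) (b a : Fin m → ℝ) {c : ℝ}
    (hc : 0 ≤ c) (h : ∀ n, |b n| ≤ c * |a n|) : ‖∑ n, b n • v n‖ ≤ c * √(∑ n, a n ^ 2) := by
  have h1 : ‖∑ n, b n • v n‖ ^ 2 = ∑ n, b n ^ 2 := by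
    rw [← real_inner_self_eq_norm_sq, hv.inner_sum]
    refine Finset.sum_congr rfl fun n _ => ?_
    simp [sq]
  have h2 : ∑ n, b n ^ 2 ≤ c ^ 2 * ∑ n, a n ^ 2 := by
    rw [Finset.mul_sum]
    refine Finset.sum_le_sum fun n _ => ?_
    have := pow_le_pow_left₀ (abs_nonneg _) (h n) 2
    rwa [mul_pow, sq_abs, sq_abs] at this
  have h3 : 0 ≤ ∑ n, a n ^ 2 := Finset.sum_nonneg fun n _ => sq_nonneg _
  refine (pow_le_pow_iff_left₀ (norm_nonneg _) (by positivity) two_ne_zero).1 ?_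
  rw [h1, mul_pow, Real.sq_sqrt h3]
  exact h2

/-- finitely many eigenvalues below each bound -/
theorem fin {j : S →ₗ[ℝ] H} {D : S →ₗ[ℝ] S} (hE : Ell j D) {J : Type} {φ : J → S} {lam : J → ℝ}
    (on : Orthonormal ℝ fun n => j (φ n)) (eig : ∀ n, (D ∘ₗ D) (φ n) = lam n • φ n)
    (pos : ∀ n, 0 ≤ lam n) (R : ℝ) : {n | lam n ≤ R}.Finite := by
  by_contra hinf
  have hinf' : {n | lam n ≤ R}.Infinite := hinf
  obtain ⟨C, hC⟩ := hE.hs
  set K : ℝ := 4 * (1 + |R|) ^ 3 with hK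
  have hR : 1 ≤ 1 + |R| := by linarith [abs_nonneg R]
  have hK0 : 0 < K := by positivity
  obtain ⟨m, hm⟩ := exists_nat_gt (C * K ^ 2)
  let e : Fin m → J := fun n => (hinf'.natEmbedding _ n : J)
  have he : Function.Injective e := by
    intro a b hab
    exact Fin.ext ((hinf'.natEmbedding _).injective (Subtype.ext hab))
  have heR : ∀ n, lam (e n) ≤ R := fun n => (hinf'.natEmbedding _ n).2
  have on' : Orthonormal ℝ fun n => j (φ (e n)) := on.comp e he
  have h1 := hC m (fun n => K⁻¹ • φ (e n)) (fun a => by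
    have h2 : ∀ i ∈ Finset.range 4, ‖j (((D ∘ₗ D) ^ i) (∑ n, a n • K⁻¹ • φ (e n)))‖ ≤
        4⁻¹ * √(∑ n, a n ^ 2) := by
      intro i hi
      have h3 : j (((D ∘ₗ D) ^ i) (∑ n, a n • K⁻¹ • φ (e n))) =
          ∑ n, (a n * K⁻¹ * lam (e n) ^ i) • j (φ (e n)) := by
        rw [map_sum, map_sum]
        refine Finset.sum_congr rfl fun n _ => ?_
        rw [smul_smul, map_smul, pow_eig (eig _), smul_smul, map_smul]
      rw [h3]
      refine norm_sum_le on' _ a (by norm_num) fun n => ?_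
      have h4 : lam (e n) ^ i ≤ (1 + |R|) ^ 3 := by
        calc lam (e n) ^ i ≤ (1 + |R|) ^ i :=
              pow_le_pow_left₀ (pos _) (by linarith [heR n, le_abs_self R]) i
          _ ≤ (1 + |R|) ^ 3 := pow_le_pow_right₀ hR (by simp at hi; omega)
      have h5 : K⁻¹ * lam (e n) ^ i ≤ 4⁻¹ := by
        rw [inv_mul_le_iff₀ hK0, hK]
        linarith
      have h6 : 0 ≤ K⁻¹ * lam (e n) ^ i := mul_nonneg (inv_pos.2 hK0).le (pow_nonneg (pos _) _)
      rw [mul_assoc, abs_mul, abs_of_nonneg h6, mul_comm]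
      exact mul_le_mul_of_nonneg_right h5 (abs_nonneg _)
    refine (Finset.sum_le_sum h2).trans ?_
    rw [Finset.sum_const, Finset.card_range, nsmul_eq_mul]
    apply le_of_eq
    push_cast
    ring)
  have h7 : ∑ n : Fin m, ‖j (K⁻¹ • φ (e n))‖ ^ 2 = m * K⁻¹ ^ 2 := by
    rw [Finset.sum_congr rfl (g := fun _ => K⁻¹ ^ 2)]
    · simp
    · intro n _
      rw [map_smul, norm_smul, on'.1 n, mul_one, Real.norm_eq_abs, sq_abs]
  rw [h7, inv_pow, ← div_eq_mul_inv, div_le_iff₀ (by positivity)] at h1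
  linarith

end EigS

theorem eig (h : ResStmt) : EigStmt := by
  intro S H _ _ _ _ _ j D hE
  obtain ⟨T, hs, hT, hc⟩ := h S H j D hE
  have hsym : (T : H →ₗ[ℝ] H).IsSymmetric := fun u v => hs u v
  have hfd : ∀ μ : ℝ, FiniteDimensional ℝ (Module.End.eigenspace (T : H →ₗ[ℝ] H) μ) := by
    intro μ
    by_cases hμ : μ = 0
    · have h0 : Module.End.eigenspace (T : H →ₗ[ℝ] H) μ = ⊥ := by
        rw [eq_bot_iff]
        intro v hv
        rw [Module.End.mem_eigenspace_iff] at hv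
        refine (Submodule.mem_bot ℝ).2 (EigS.zero_of hE.dense fun φ => ?_)
        have hv' : T v = μ • v := hv
        rw [← hT, hv', hμ, zero_smul, inner_zero_left]
      rw [h0]
      infer_instance
    · exact ContinuousLinearMap.finite_dimensional_eigenspace hc μ hμ
  let b := fun μ : ℝ => stdOrthonormalBasis ℝ (Module.End.eigenspace (T : H →ₗ[ℝ] H) μ)
  let v : (Σ μ : ℝ, Fin (Module.finrank ℝ (Module.End.eigenspace (T : H →ₗ[ℝ] H) μ))) → H :=
    fun n => (b n.1 n.2 : H)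
  have hon : Orthonormal ℝ v :=
    hsym.orthogonalFamily_eigenspaces.orthonormal_sigma_orthonormal fun μ => (b μ).orthonormal
  have hv : ∀ n, T (v n) = n.1 • v n := fun n => Module.End.mem_eigenspace_iff.1 (b n.1 n.2).2
  choose φ hφ hφ' using fun n => EigS.smooth hE hT (hv n) (hon.ne_zero n)
  have hj : (fun n => j (φ n)) = v := funext hφ
  have on : Orthonormal ℝ fun n => j (φ n) := hj ▸ hon
  have eig : ∀ n, (D ∘ₗ D) (φ n) = (n.1⁻¹ - 1) • φ n := hφ'
  have pos : ∀ n : (Σ μ : ℝ, Fin (Module.finrank ℝ (Module.End.eigenspace (T : H →ₗ[ℝ] H) μ))),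
      0 ≤ n.1⁻¹ - 1 := by
    intro n
    have h1 := hE.sym (D (φ n)) (φ n)
    rw [hφ', map_smul, real_inner_smul_left, real_inner_self_eq_norm_sq,
      real_inner_self_eq_norm_sq, on.1 n] at h1
    nlinarith [sq_nonneg ‖j (D (φ n))‖]
  refine ⟨_, φ, fun n => n.1⁻¹ - 1, on, ?_, eig, pos, EigS.fin hE on eig pos⟩
  rw [hj, eq_bot_iff, ← ContinuousLinearMap.orthogonalComplement_iSup_eigenspaces_eq_bot hc hsym]
  refine Submodule.orthogonal_le (iSup_le fun μ w hw => ?_)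
  have h1 : w = ∑ i, (b μ).repr ⟨w, hw⟩ i • v ⟨μ, i⟩ := by
    have h2 := congrArg Subtype.val ((b μ).sum_repr ⟨w, hw⟩)
    rw [Submodule.coe_sum] at h2
    exact h2.symm
  rw [h1]
  exact Submodule.sum_mem _ fun i _ => Submodule.smul_mem _ _ (Submodule.subset_span ⟨_, rfl⟩)

end Pool.Agent.MP_e1dc65_gt.A

end
end MrgPart3

-- ======== part 4: formerly Pool.Agent.MP_e1dc65_gt.a.Idx
section MrgPart4

/-! PROJECT HC, part A, row IDX: the index theorem. -/

set_option maxSynthPendingDepth 3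

open scoped Quaternion ContDiff Topology RealInnerProductSpace
open Set Filter MeasureTheory Metric

noncomputable section

namespace Pool.Agent.MP_e1dc65_gt.A

namespace Idx

/-- a kernel of weight one on the diagonal -/
theorem diag1 {P B : Type} [NormedAddCommGroup P] [NormedSpace ℝ P] [NormedAddCommGroup B]
    [NormedSpace ℝ B] {z : P → ℍ} {F : ℝ → P → B} (h : Wt z 1 F) {K : Set P} (hK : IsCompact K) :
    ∃ (a : P → B) (M : ℝ), ∀ t ∈ Ioc (0 : ℝ) 1, ∀ p ∈ K, z p = 0 → ‖F t p - t⁻¹ • a p‖ ≤ M := by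
  induction h with
  | gen n j a hv hn =>
    cases j with
    | zero =>
      have hc : ContDiff ℝ ∞ a := hv
      obtain ⟨M, hM⟩ := hK.exists_bound_of_continuousOn hc.continuous.continuousOn
      have e : ∀ t : ℝ, 0 < t → t ^ n * hk t 0 = ((4 * Real.pi) ^ 2)⁻¹ * t ^ (n - 2) := by
        intro t ht
        rw [zpow_sub₀ ht.ne', hk, zpow_ofNat]
        have := Real.pi_pos
        simp only [norm_zero, ne_eq, OfNat.ofNat_ne_zero, not_false_eq_true, zero_pow, neg_zero,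
          zero_div, Real.exp_zero]
        field_simp
      rcases eq_or_lt_of_le (show (1 : ℤ) ≤ n by omega) with rfl | h1
      · refine ⟨fun p => ((4 * Real.pi) ^ 2)⁻¹ • a p, 0, fun t ht p _ hp => ?_⟩
        beta_reduce
        rw [hp, e t ht.1, smul_smul, mul_comm t⁻¹]
        simp
      · refine ⟨0, ((4 * Real.pi) ^ 2)⁻¹ * M, fun t ht p hpK hp => ?_⟩
        have h2 : t ^ (n - 2) ≤ 1 := zpow_le_one₀ ht.1 ht.2 (by omega)
        have h3 : 0 < t ^ (n - 2) := zpow_pos ht.1 _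
        beta_reduce
        rw [hp, e t ht.1, Pi.zero_apply, smul_zero, sub_zero, norm_smul,
          Real.norm_of_nonneg (by positivity), mul_assoc]
        gcongr
        exact (mul_le_of_le_one_left (norm_nonneg _) h2).trans (hM p hpK)
    | succ j =>
      obtain ⟨a', -, e⟩ := hv
      exact ⟨0, 0, fun t _ p _ hp => by simp [e p, hp]⟩
  | add _ _ i1 i2 =>
    obtain ⟨a, M, h⟩ := i1
    obtain ⟨a', M', h'⟩ := i2
    refine ⟨a + a', M + M', fun t ht p hp h0 => le_trans (le_of_eq ?_)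
      (norm_add_le_of_le (h t ht p hp h0) (h' t ht p hp h0))⟩
    rw [Pi.add_apply, smul_add, add_sub_add_comm]
  | congr _ e i =>
    obtain ⟨a, M, h⟩ := i
    exact ⟨a, M, fun t ht p hp h0 => by rw [e t ht.1]; exact h t ht p hp h0⟩

/-- a convergent function has no pole -/
theorem bdd_of_lim {f : ℝ → ℝ} {l b M : ℝ} (hf : Tendsto f (𝓝[>] 0) (𝓝 l))
    (h : ∀ t ∈ Ioo (0 : ℝ) (1 / 2), |f t - t⁻¹ * b| ≤ M) :
    ∀ t ∈ Ioo (0 : ℝ) (1 / 2), |f t| ≤ M := by
  have h0 : Tendsto (fun t : ℝ => t) (𝓝[>] 0) (𝓝 0) := tendsto_nhdsWithin_of_tendsto_nhds tendsto_id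
  have h1 : Tendsto (fun t => |t * f t - b|) (𝓝[>] 0) (𝓝 |0 * l - b|) :=
    ((h0.mul hf).sub_const b).abs
  have h2 : |0 * l - b| ≤ 0 * M := le_of_tendsto_of_tendsto h1 (h0.mul_const M) (by
    filter_upwards [Ioo_mem_nhdsGT (show (0 : ℝ) < 1 / 2 by norm_num)] with t ht
    have : t * f t - b = t * (f t - t⁻¹ * b) := by
      rw [mul_sub, mul_inv_cancel_left₀ ht.1.ne']
    rw [this, abs_mul, abs_of_pos ht.1]
    exact mul_le_mul_of_nonneg_left (h t ht) ht.1.le)
  have hb : b = 0 := by simpa using h2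
  intro t ht
  simpa [hb] using h t ht

theorem norm_gam : ‖gam‖ ≤ 1 := ContinuousLinearMap.opNorm_le_bound _ zero_le_one fun s => by
  rw [one_mul, gam_apply, WithLp.prod_norm_eq_of_L2, WithLp.prod_norm_eq_of_L2]
  simp

theorem act_gam (p q r : ℍ) : act p q r * gam = gam * act p q r := by
  ext1 s
  refine W_ext ?_ ?_ <;> simp [act_apply, gam_apply]

/-- the flip of the two halves -/
def flip : W →L[ℝ] W := blk 0 1 1 0

theorem str_one : str 1 = 0 := by
  have h1 : flip * flip = 1 := by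
    ext1 s
    refine W_ext ?_ ?_ <;> simp [flip, blk_apply]
  have h2 : flip * gam = -(gam * flip) := by
    ext1 s
    refine W_ext ?_ ?_ <;> simp [flip, blk_apply, gam_apply]
  have h3 : LinearMap.trace ℝ W (flip * (gam * flip)).toLinearMap =
      LinearMap.trace ℝ W ((gam * flip) * flip).toLinearMap :=
    LinearMap.trace_mul_comm ℝ flip.toLinearMap (gam * flip).toLinearMap
  rw [← mul_assoc, h2, neg_mul, mul_assoc, h1, ContinuousLinearMap.toLinearMap_neg, map_neg] at h3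
  rw [str_apply]
  linarith

end Idx

open Idx in
theorem idx (h1 : CocStmt) (h2 : InstStmt) (h3 : EigStmt) (h4 : MsStmt) (h5 : KerStmt)
    (h6 : TrStmt) (h7 : LpStmt) (h8 : WeitzStmt) (h9 : SpStmt) : IdxStmt := by
  intro X G κ hG j D Γ hI
  have hE := (h5 X G κ hG j D Γ hI).1
  obtain ⟨J, φ, lam, hφ⟩ := h3 _ _ j D hE
  obtain ⟨T1, T2⟩ := h6 X G κ hG j D Γ hI J φ lam hφ id (fun _ => gam) Γ (fun _ => norm_gam) hI.Γ
  obtain ⟨-, -, -, -, i5, i6⟩ := (h2 X G κ hG).2 j D Γ hI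
  obtain ⟨c1, c2, -, -⟩ := h1 X G κ hG
  have hint : ∀ t ∈ Ioo (0 : ℝ) (1 / 2), ∫ y, G.ltr φ lam id (fun _ => gam) t y ∂G.μ = ind D Γ :=
    fun t ht => (h4 _ _ j D J φ lam hE hφ).2.2.2 Γ t _ i5 i6 (T1 t ht).2
  have T3 : ∀ i (K : Set E4) (C : ℝ), IsCompact K → K ⊆ G.T i → ∃ C', ∀ y ∈ G.U i,
      G.ch i y ∈ interior K → ∀ k ρ, PPar ((G.R i).lap κ) (G.ch i y) K C k ρ →
      ∀ t ∈ Ioo (0 : ℝ) (1 / 2),
        |G.ltr φ lam id (fun _ => gam) t y - str (k t (G.ch i y))| ≤ C' * t := by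
    intro i K C hK hT
    obtain ⟨C', hC⟩ := T2 i K C hK hT
    refine ⟨C', fun y hy hi k ρ hk t ht => ?_⟩
    have h := (hC y hy hi k ρ hk t ht).1 hy
    have e : G.g κ i (G.c y) y * gam * G.g κ (G.c (id y)) i (id y) = gam := by
      rw [show G.g κ i (G.c y) y * gam = gam * G.g κ i (G.c y) y from act_gam _ _ _, mul_assoc]
      change gam * (G.g κ i (G.c y) y * G.g κ (G.c y) i y) = gam
      rw [c2 i (G.c y) i y ⟨⟨hy, hG.mem y⟩, hy⟩, c1 i y hy, mul_one]
    rwa [e] at h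
  have hlim : ∀ y, Tendsto (fun t => G.ltr φ lam id (fun _ => gam) t y) (𝓝[>] 0)
      (𝓝 (((4 * Real.pi) ^ 2)⁻¹ * G.den κ y)) := by
    intro y
    obtain ⟨r, hr, hT, C, k, ρ, hk, hl⟩ := h9 (G.R (G.c y)) (G.T (G.c y)) κ (hG.loc _) _
      ((G.ch (G.c y)).map_source (hG.mem y))
    obtain ⟨C', hC⟩ := T3 (G.c y) _ C (isCompact_closedBall _ r) hT
    have h := hC y (hG.mem y) (mem_interior_iff_mem_nhds.2 (closedBall_mem_nhds _ hr)) k ρ hk
    have h0 : Tendsto (fun t : ℝ => C' * t) (𝓝[>] 0) (𝓝 0) := by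
      simpa using (tendsto_nhdsWithin_of_tendsto_nhds (s := Ioi (0 : ℝ))
        (tendsto_id (x := 𝓝 (0 : ℝ)))).const_mul C'
    have h' := squeeze_zero_norm' (f := fun t => G.ltr φ lam id (fun _ => gam) t y -
      str (k t (G.ch (G.c y) y))) (by
      filter_upwards [Ioo_mem_nhdsGT (show (0 : ℝ) < 1 / 2 by norm_num)] with t ht using h t ht) h0
    simpa [Geo.den] using h'.add hl
  have hloc : ∀ y₀ : X, ∃ O ∈ 𝓝 y₀, ∃ M, ∀ y ∈ O, ∀ t ∈ Ioo (0 : ℝ) (1 / 2),
      |G.ltr φ lam id (fun _ => gam) t y| ≤ M := by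
    intro y₀
    obtain ⟨r, hr, hT, θ', -, -, hP⟩ := h7 _ _ (h8 _ _ κ (hG.loc (G.c y₀))).1 _
      ((G.ch (G.c y₀)).map_source (hG.mem y₀)) univ univ_mem
    obtain ⟨k, ρ, hk⟩ := hP 4
    obtain ⟨C, hC⟩ := hk.par le_rfl
    obtain ⟨C', hC'⟩ := T3 (G.c y₀) _ C (isCompact_closedBall _ (2 * r))
      (hT.trans inter_subset_left)
    obtain ⟨a, M, hM⟩ := diag1 hk.kW ((isCompact_closedBall (G.ch (G.c y₀) y₀) r).prod
      (isCompact_closedBall (G.ch (G.c y₀) y₀) r))
    refine ⟨G.U (G.c y₀) ∩ G.ch (G.c y₀) ⁻¹' closedBall (G.ch (G.c y₀) y₀) r,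
      inter_mem ((G.ch _).open_source.mem_nhds (hG.mem y₀))
        (((G.ch _).continuousAt (hG.mem y₀)).preimage_mem_nhds (closedBall_mem_nhds _ hr)),
      |C'| + ‖str‖ * M, fun y hy => bdd_of_lim
        (b := str (a (G.ch (G.c y₀) y, G.ch (G.c y₀) y))) (hlim y) fun t ht => ?_⟩
    have h := hC' y hy.1 (mem_interior_iff_mem_nhds.2 (mem_of_superset (isOpen_ball.mem_nhds
      (closedBall_subset_ball (by linarith) hy.2)) ball_subset_closedBall)) _ _ (hC _ hy.2) t ht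
    have h' := (str.le_opNorm _).trans (mul_le_mul_of_nonneg_left
      (hM t ⟨ht.1, by linarith [ht.2]⟩ (G.ch (G.c y₀) y, G.ch (G.c y₀) y) ⟨hy.2, hy.2⟩ (by simp))
      (norm_nonneg str))
    rw [map_sub, map_sub, map_smul, map_smul, str_one, smul_zero, sub_zero, smul_eq_mul,
      Real.norm_eq_abs] at h'
    have h'' : C' * t ≤ |C'| := (mul_le_mul_of_nonneg_right (le_abs_self _) ht.1.le).trans
      (mul_le_of_le_one_right (abs_nonneg _) (by linarith [ht.2]))
    exact (abs_sub_le _ _ _).trans (add_le_add (h.trans h'') h')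
  obtain ⟨M, hM⟩ : ∃ M, ∀ y : X, ∀ t ∈ Ioo (0 : ℝ) (1 / 2),
      |G.ltr φ lam id (fun _ => gam) t y| ≤ M := by
    choose O hO M hM using hloc
    obtain ⟨F, hF⟩ := finite_cover_nhds hO
    refine ⟨∑ x ∈ F, |M x|, fun y t ht => ?_⟩
    obtain ⟨x, hx, hy⟩ := mem_iUnion₂.1 (hF ▸ mem_univ y)
    exact (hM x y hy t ht).trans ((le_abs_self _).trans
      (Finset.single_le_sum (f := fun x => |M x|) (fun _ _ => abs_nonneg _) hx))
  obtain ⟨u, -, hu, hu0⟩ := exists_seq_strictAnti_tendsto' (show (0 : ℝ) < 1 / 2 by norm_num)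
  have hu1 : Tendsto u atTop (𝓝[>] 0) :=
    tendsto_nhdsWithin_iff.2 ⟨hu0, Eventually.of_forall fun n => (hu n).1⟩
  have := hG.fin
  have hm := fun n => (T1 _ (hu n)).1.aestronglyMeasurable
  have hl := ae_of_all G.μ fun y => (hlim y).comp hu1
  have hi : Integrable (fun y => ((4 * Real.pi) ^ 2)⁻¹ * G.den κ y) G.μ :=
    .of_bound (aestronglyMeasurable_of_tendsto_ae atTop hm hl) M (ae_of_all _ fun y =>
      le_of_tendsto' ((hlim y).comp hu1).norm fun n => hM y _ (hu n))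
  have hd := tendsto_integral_of_dominated_convergence (fun _ => M) hm (integrable_const M)
    (fun n => ae_of_all _ fun y => hM y _ (hu n)) hl
  refine ⟨(integrable_const_mul_iff (IsUnit.mk0 _ (by positivity)) _).1 hi, ?_⟩
  rw [← integral_const_mul]
  exact tendsto_nhds_unique (tendsto_const_nhds.congr fun n => (hint _ (hu n)).symm) hd

end Pool.Agent.MP_e1dc65_gt.A

end
end MrgPart4

-- ======== part 5: formerly Pool.Agent.MP_e1dc65_gt.a.Mu
section MrgPart5

/-! PROJECT HC, part A: existence of the Riemannian measure. -/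

set_option maxSynthPendingDepth 3

open scoped Quaternion ContDiff Topology RealInnerProductSpace
open Set Filter MeasureTheory Metric

noncomputable section

namespace Pool.Agent.MP_e1dc65_gt.A

namespace Mu

theorem jac_comp (A : E4 →L[ℝ] ℍ) (B : E4 →L[ℝ] E4) : jac (A.comp B) = jac A * |B.det| := by
  unfold jac
  rw [← abs_mul, ← ContinuousLinearMap.comp_assoc]
  congr 1
  exact LinearMap.det_comp _ _

theorem jac_rot {p q : ℍ} (hp : ‖p‖ = 1) (hq : ‖q‖ = 1) {A B : E4 →L[ℝ] ℍ}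
    (h : ∀ v, A v = p * B v * star q) : jac A = jac B := by
  let r : E4 →ₗᵢ[ℝ] E4 :=
    { toFun := fun v => qv (p * qv.symm v * star q)
      map_add' := fun u v => by rw [map_add, mul_add, add_mul, map_add]
      map_smul' := fun c v => by
        rw [map_smul, mul_smul_comm, smul_mul_assoc, map_smul, RingHom.id_apply]
      norm_map' := fun v => by
        show ‖qv (p * qv.symm v * star q)‖ = ‖v‖
        rw [qv.norm_map, norm_mul, norm_mul, norm_star, hp, hq, one_mul, mul_one,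
          qv.symm.norm_map] }
  have h1 : |r.toLinearMap.det| = 1 := by
    rw [← LinearMap.normDet_eq_abs_det, r.normDet_eq_one]
  have h2 : ((qv.toContinuousLinearEquiv : ℍ →L[ℝ] E4).comp A).toLinearMap =
      r.toLinearMap ∘ₗ ((qv.toContinuousLinearEquiv : ℍ →L[ℝ] E4).comp B).toLinearMap := by
    refine LinearMap.ext fun v => ?_
    show qv (A v) = qv (p * qv.symm (qv (B v)) * star q)
    rw [h, qv.symm_apply_apply]
  unfold jac ContinuousLinearMap.det
  rw [h2, LinearMap.det_comp, abs_mul, h1, one_mul]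

theorem continuous_jac : Continuous jac :=
  (ContinuousLinearMap.continuous_det.comp
    (continuous_const.clm_comp continuous_id)).abs

variable {X : Sp} (G : Geo X)

/-- the measure of one chart -/
def nu (i : Fin G.n) : Measure X := Measure.map (G.ch i).symm
  ((volume.restrict (G.T i)).withDensity fun y => ENNReal.ofReal (jac ((G.R i).θ y)))

theorem nu_apply (i : Fin G.n) {A : Set X} (hA : MeasurableSet A) :
    nu G i A = ∫⁻ y in (G.ch i).symm ⁻¹' A ∩ G.T i, ENNReal.ofReal (jac ((G.R i).θ y)) := by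
  have hT : MeasurableSet (G.T i) := (G.ch i).open_target.measurableSet
  rw [nu, Measure.map_apply_of_aemeasurable (((G.ch i).continuousOn_symm.aemeasurable hT).mono_ac
    (withDensity_absolutelyContinuous _ _)) hA, withDensity_apply', Measure.restrict_restrict' hT]

theorem meas_pre (i : Fin G.n) {A : Set X} (hA : MeasurableSet A) :
    MeasurableSet ((G.ch i).symm ⁻¹' A ∩ G.T i) := by
  have hT : MeasurableSet (G.T i) := (G.ch i).open_target.measurableSet
  have h1 := hT.subtype_image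
    ((continuousOn_iff_continuous_domRestrict.1 (G.ch i).continuousOn_symm).measurable hA)
  convert h1 using 1
  ext y
  constructor
  · exact fun hy => ⟨⟨y, hy.2⟩, hy.1, rfl⟩
  · rintro ⟨⟨z, hz⟩, h2, rfl⟩
    exact ⟨h2, hz⟩

variable {G}

theorem nu_eq (h : G.Ok0) (i j : Fin G.n) {A : Set X} (hA : MeasurableSet A)
    (hs : A ⊆ G.U i ∩ G.U j) : nu G i A = nu G j A := by
  have e : (G.ch i).symm ⁻¹' A ∩ G.T i = G.rd id j i '' ((G.ch j).symm ⁻¹' A ∩ G.T j) := by
    ext y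
    constructor
    · rintro ⟨h1, h2⟩
      have h3 := (G.ch j).left_inv (hs h1).2
      refine ⟨G.ch j ((G.ch i).symm y), ⟨?_, (G.ch j).map_source (hs h1).2⟩, ?_⟩
      · rw [mem_preimage, h3]; exact h1
      · rw [Geo.rd, h3]; exact (G.ch i).right_inv h2
    · rintro ⟨z, ⟨h1, -⟩, rfl⟩
      refine ⟨?_, (G.ch i).map_source (hs h1).1⟩
      rw [mem_preimage, Geo.rd, id, (G.ch i).left_inv (hs h1).1]
      exact h1
  rw [nu_apply G i hA, nu_apply G j hA, e,
    lintegral_image_eq_lintegral_abs_det_fderiv_mul volume (meas_pre G j hA)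
      (f' := fun y => fderiv ℝ (G.rd id j i) y)]
  · refine setLIntegral_congr_fun (meas_pre G j hA) fun y hy => ?_
    have h1 := h.rot i j _ (hs hy.1)
    rw [(G.ch j).right_inv hy.2] at h1
    show _ = ENNReal.ofReal (jac ((G.R j).θ y))
    rw [← ENNReal.ofReal_mul (abs_nonneg _), mul_comm, ← jac_comp]
    congr 1
    exact jac_rot (h.p1 i j _ (hs hy.1)) (h.q1 i j _ (hs hy.1)) h1
  · intro y hy
    have h1 := h.sm i j _ (hs hy.1)
    rw [(G.ch j).right_inv hy.2] at h1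
    exact (h1.differentiableAt (by simp)).hasFDerivAt.hasFDerivWithinAt
  · intro y hy z hz e'
    exact (G.ch j).symm.injOn hy.2 hz.2 ((G.ch i).injOn (hs hy.1).1 (hs hz.1).1 e')

theorem chart (h : G.Ok0) (i : Fin G.n) :
    (Measure.sum fun j => (nu G j).restrict {x | G.c x = j}).restrict (G.U i) = nu G i := by
  have hU : MeasurableSet (G.U i) := (G.ch i).open_source.measurableSet
  ext A hA
  have h1 : nu G i A = nu G i (A ∩ G.U i) := by
    rw [nu_apply G i hA, nu_apply G i (hA.inter hU)]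
    congr 2
    ext y
    exact ⟨fun hy => ⟨⟨hy.1, (G.ch i).map_target hy.2⟩, hy.2⟩, fun hy => ⟨hy.1.1, hy.2⟩⟩
  have h2 : A ∩ G.U i = ⋃ j, A ∩ G.U i ∩ {x | G.c x = j} := by
    ext x; simp
  rw [Measure.restrict_apply hA, Measure.sum_apply _ (hA.inter hU), h1]
  conv_rhs => rw [h2]
  rw [measure_iUnion (fun j k hjk => ?_) fun j => (hA.inter hU).inter (h.meas j)]
  · refine tsum_congr fun j => ?_
    rw [Measure.restrict_apply (hA.inter hU)]
    refine nu_eq h j i ((hA.inter hU).inter (h.meas j)) fun x hx => ⟨?_, hx.1.2⟩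
    have h3 : G.c x = j := hx.2
    rw [← h3]
    exact h.mem x
  · exact Set.disjoint_left.2 fun x h3 h4 => hjk (h3.2.symm.trans h4.2)

theorem fin (h : G.Ok0) {μ : Measure X} (hμ : ∀ i, μ.restrict (G.U i) = nu G i) :
    IsFiniteMeasure μ := by
  have : IsLocallyFiniteMeasure μ := ⟨fun x => by
    have hx := h.mem x
    set i := G.c x
    obtain ⟨r, hr, h1⟩ := nhds_basis_closedBall.mem_iff.1
      ((G.ch i).open_target.mem_nhds ((G.ch i).map_source hx))
    have ho : IsOpen (G.U i ∩ G.ch i ⁻¹' ball (G.ch i x) r) :=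
      (G.ch i).isOpen_inter_preimage isOpen_ball
    refine ⟨_, ho.mem_nhds ⟨hx, mem_ball_self hr⟩, ?_⟩
    rw [← Measure.restrict_eq_self μ (inter_subset_left), hμ, nu_apply G i ho.measurableSet]
    refine lt_of_le_of_lt (lintegral_mono_set (t := closedBall (G.ch i x) r) fun y hy => ?_) ?_
    · have h2 := hy.1.2
      rw [mem_preimage, (G.ch i).right_inv hy.2] at h2
      exact ball_subset_closedBall h2
    · exact ((continuous_jac.comp_continuousOn
        ((h.loc i).frm.θs.continuousOn.mono h1)).integrableOn_compact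
        (isCompact_closedBall _ _)).lintegral_lt_top⟩
  infer_instance

end Mu

theorem mu : MuStmt := fun _ G h =>
  ⟨Measure.sum fun j => (Mu.nu G j).restrict {x | G.c x = j},
    ⟨⟨h.mem, h.meas, h.loc, h.sm, h.p1, h.q1, h.rot⟩, Mu.fin h (Mu.chart h),
      Mu.chart (G := G) h⟩⟩

end Pool.Agent.MP_e1dc65_gt.A

end
end MrgPart5

-- ======== part 6: formerly Pool.Agent.MP_e1dc65_gt.a.Ker
section MrgPart6

/-! PROJECT HC, part A: ellipticity in the abstract sense; heat kernel against parametrices. -/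

set_option maxSynthPendingDepth 3

open scoped Quaternion ContDiff Topology RealInnerProductSpace
open Set Filter MeasureTheory Metric

noncomputable section

namespace Pool.Agent.MP_e1dc65_gt.A

namespace Ker
variable {X : Sp} {G : Geo X} {κ : Tw} {C C' : ℝ} {y : X} {w : W} {k r : ℝ → X → W}

theorem mono (h : G.GPar κ C y w k r) (hC : C ≤ C') : G.GPar κ C' y w k r where
  sec := h.sec
  der := h.der
  lim := h.lim
  br s hs x := (h.br s hs x).trans hC
  bk s hs x := (h.bk s hs x).trans (by gcongr)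
  b1 s hs := (h.b1 s hs).trans hC

theorem nonneg (h : G.GPar κ C y w k r) : 0 ≤ C :=
  (norm_nonneg _).trans (h.br (1 / 2) ⟨by norm_num, by norm_num⟩ y)

/-- a family of global parametrices with a uniform constant -/
theorem unif (h4 : LpStmt) (h5 : WeitzStmt) (h6 : TogStmt) (hG : G.Adm κ) :
    ∃ C, ∀ y w, ‖w‖ ≤ 1 → ∃ k r, G.GPar κ C y w k r := by
  have key := isCompact_univ.induction_on
    (p := fun S : Set X => ∃ C, ∀ y ∈ S, ∀ w, ‖w‖ ≤ 1 → ∃ k r, G.GPar κ C y w k r)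
    ⟨0, fun _ h => h.elim⟩ (fun S T hST ⟨C, hC⟩ => ⟨C, fun y hy => hC y (hST hy)⟩)
    (fun S T ⟨C, hC⟩ ⟨C', hC'⟩ => ⟨max C C', fun y hy w hw => by
      rcases hy with hy | hy
      · obtain ⟨k, r, h⟩ := hC y hy w hw
        exact ⟨k, r, mono h (le_max_left _ _)⟩
      · obtain ⟨k, r, h⟩ := hC' y hy w hw
        exact ⟨k, r, mono h (le_max_right _ _)⟩⟩) fun x _ => by
      have hx := hG.mem x
      obtain ⟨r, hr, hsub, θ', -, -, hk⟩ := h4 _ _ (h5 _ _ κ (hG.loc (G.c x))).1 _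
        ((G.ch (G.c x)).map_source hx) univ univ_mem
      obtain ⟨k, ρ, hL⟩ := hk 4
      obtain ⟨C, hC⟩ := hL.par le_rfl
      obtain ⟨C', hC'⟩ := h6 X G κ hG (G.c x) _ C (isCompact_closedBall _ _)
        (hsub.trans inter_subset_left)
      refine ⟨G.U (G.c x) ∩ G.ch (G.c x) ⁻¹' ball (G.ch (G.c x) x) r, ?_, C', fun y hy w hw => ?_⟩
      · rw [nhdsWithin_univ]
        exact inter_mem ((G.ch (G.c x)).open_source.mem_nhds hx)
          ((G.ch (G.c x)).continuousAt hx (ball_mem_nhds _ hr))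
      · exact ⟨_, _, hC' y hy.1 (ball_subset_interior_closedBall
          (ball_subset_ball (by linarith) hy.2)) _ _ (hC _ (ball_subset_closedBall hy.2)) w hw⟩
  obtain ⟨C, hC⟩ := key
  exact ⟨C, fun y => hC y (mem_univ y)⟩

variable {j : G.Sec κ →ₗ[ℝ] Lp W 2 G.μ} {D Γ : G.Sec κ →ₗ[ℝ] G.Sec κ}

theorem norm_le [IsFiniteMeasure G.μ] (hI : G.Inst κ j D Γ) (s : G.Sec κ) (hC : 0 ≤ C)
    (hs : ∀ x, ‖(s : X → W) x‖ ≤ C) : ‖j s‖ ≤ (G.μ.real univ + 1) * C := by
  have h1 : ‖j s‖ ^ 2 ≤ C ^ 2 * G.μ.real univ := by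
    rw [← real_inner_self_eq_norm_sq, L2.inner_def]
    refine (Real.le_norm_self _).trans (norm_integral_le_of_norm_le_const ?_)
    filter_upwards [hI.j s] with x hx
    rw [hx, real_inner_self_eq_norm_sq, Real.norm_of_nonneg (by positivity)]
    exact pow_le_pow_left₀ (norm_nonneg _) (hs x) 2
  have h0 : 0 ≤ G.μ.real univ := measureReal_nonneg
  refine le_of_sq_le_sq (h1.trans ?_) (by positivity)
  rw [mul_pow, mul_comm]
  gcongr
  nlinarith

/-- a global parametrix is a parametrix in the abstract sense -/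
theorem hpar [IsFiniteMeasure G.μ] (hI : G.Inst κ j D Γ) (hip : ∀ s s', ⟪j s, j s'⟫ = G.ip s s')
    (h : G.GPar κ C y w k r) (hC : (G.μ.real univ + 1) * C ≤ C') :
    ∃ k' r' : ℝ → G.Sec κ, (∀ s, 0 < s → (k' s : X → W) = k s ∧ (r' s : X → W) = r s) ∧
      HPar j (D ∘ₗ D) C' (fun ψ => ⟪(ψ : X → W) y, w⟫) k' r' := by
  classical
  have h0 := nonneg h
  set k' : ℝ → G.Sec κ := fun s => if hs : 0 < s then ⟨k s, (h.sec s hs).1⟩ else 0 with hk'
  set r' : ℝ → G.Sec κ := fun s => if hs : 0 < s then ⟨r s, (h.sec s hs).2⟩ else 0 with hr'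
  have e : ∀ s, 0 < s → (k' s : X → W) = k s ∧ (r' s : X → W) = r s := fun s hs => by
    simp only [hk', hr', dif_pos hs, and_self]
  refine ⟨k', r', e, fun ψ s hs => ?_, fun ψ => ?_, fun s hs => ?_, fun s hs => ?_⟩
  · simp only [hip, LinearMap.comp_apply, hI.D, (e s hs.1).1, (e s hs.1).2]
    refine (h.der ψ ψ.2 s hs).congr_of_eventuallyEq ?_
    filter_upwards [lt_mem_nhds hs.1] with s' hs'
    rw [(e s' hs').1]
  · refine (h.lim ψ ψ.2).congr' ?_
    filter_upwards [self_mem_nhdsWithin] with s hs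
    rw [hip, (e s hs).1]
  · exact (norm_le hI _ h0 fun x => by rw [(e s hs.1).2]; exact h.br s hs x).trans hC
  · refine (norm_le (C := C / s ^ 2) hI _ (by positivity) fun x => by
      rw [(e s hs.1).1]; exact h.bk s hs x).trans ?_
    rw [← mul_div_assoc]
    gcongr

theorem norm_sq_eq (v : W) : ‖v‖ ^ 2 = ∑ b, ⟪v, stdOrthonormalBasis ℝ W b⟫ ^ 2 := by
  rw [← (stdOrthonormalBasis ℝ W).sum_sq_inner_left v]

theorem basis_le (b) : ‖stdOrthonormalBasis ℝ W b‖ ≤ 1 :=
  ((stdOrthonormalBasis ℝ W).orthonormal.1 b).le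

theorem le_sq_of {q c : ℝ} (hq : 0 ≤ q) (h : q ≤ c * √q) : q ≤ c ^ 2 := by
  nlinarith [Real.sq_sqrt hq, sq_nonneg (√q - c)]

theorem cross {a m c : ℝ} (hm : 0 ≤ m) (hc : 0 ≤ c) (h : a ≤ c) : a * c ≤ m * c + c ^ 2 := by
  nlinarith [mul_nonneg hm hc, mul_le_mul_of_nonneg_right h hc]

end Ker

open Ker in
theorem ker (_h1 : IntStmt) (h2 : InstStmt) (h3 : RegStmt) (h4 : LpStmt) (h5 : WeitzStmt)
    (h6 : TogStmt) (h7 : HeatStmt) : KerStmt := by
  intro X G κ hG j D Γ hI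
  have := hG.fin
  obtain ⟨hip, hinj, hden, hsym, -, -⟩ := (h2 X G κ hG).2 j D Γ hI
  obtain ⟨C₀, hC₀⟩ := unif h4 h5 h6 hG
  set m := G.μ.real univ + 1 with hm
  have hm0 : 0 ≤ G.μ.real univ := measureReal_nonneg
  refine ⟨⟨hinj, hden, hsym, h3 X G κ hG j D Γ hI, ?_⟩, fun J φ lam hE => ⟨fun t ht => ?_, fun C => ?_⟩⟩
  · refine ⟨(Module.finrank ℝ W * (5 * (m * C₀)) ^ 2) * G.μ.real univ, fun N ψ hψ => ?_⟩
    have pt : ∀ y, ∑ n, ‖(ψ n : X → W) y‖ ^ 2 ≤ Module.finrank ℝ W * (5 * (m * C₀)) ^ 2 := fun y => by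
      simp only [norm_sq_eq]
      rw [Finset.sum_comm]
      refine (Finset.sum_le_card_nsmul _ _ ((5 * (m * C₀)) ^ 2) fun b _ => ?_).trans (by simp)
      obtain ⟨k, r, h⟩ := hC₀ y _ (basis_le b)
      obtain ⟨k', r', -, hp⟩ := hpar hI hip h le_rfl
      set a : Fin N → ℝ := fun n => ⟪(ψ n : X → W) y, stdOrthonormalBasis ℝ W b⟫ with ha
      have h0 : 0 ≤ 5 * (m * C₀) := by have := nonneg h; positivity
      have e := ((h7 _ _ j _ _ _ k' r' hp).1 (∑ n, a n • ψ n)).trans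
        (mul_le_mul_of_nonneg_left (hψ a) h0)
      have e2 : ⟪((∑ n, a n • ψ n : G.Sec κ) : X → W) y, stdOrthonormalBasis ℝ W b⟫ =
          ∑ n, a n ^ 2 := by
        simp only [Submodule.coe_sum, Submodule.coe_smul, Finset.sum_apply, Pi.smul_apply, sum_inner,
          real_inner_smul_left, sq, ha]
      have hq : 0 ≤ ∑ n, a n ^ 2 := Finset.sum_nonneg fun n _ => sq_nonneg _
      rw [e2, abs_of_nonneg hq] at e
      exact le_sq_of hq e
    have hint : ∀ n, Integrable (fun x => ‖(ψ n : X → W) x‖ ^ 2) G.μ := fun n =>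
      (L2.integrable_inner (𝕜 := ℝ) (j (ψ n)) (j (ψ n))).congr (by
        filter_upwards [hI.j (ψ n)] with x hx
        rw [hx, real_inner_self_eq_norm_sq])
    have e : ∑ n, ‖j (ψ n)‖ ^ 2 = ∫ x, ∑ n, ‖(ψ n : X → W) x‖ ^ 2 ∂G.μ := by
      rw [integral_finsetSum _ fun n _ => hint n]
      refine Finset.sum_congr rfl fun n _ => ?_
      rw [← real_inner_self_eq_norm_sq, hip]
      simp only [Geo.ip, real_inner_self_eq_norm_sq]
    rw [e]
    refine (Real.le_norm_self _).trans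
      (norm_integral_le_of_norm_le_const (Eventually.of_forall fun x => ?_))
    rw [Real.norm_of_nonneg (by positivity)]
    exact pt x
  · refine ⟨Module.finrank ℝ W * (5 * (m * C₀) / t ^ 2) ^ 2, fun y => ?_⟩
    have key : ∀ b, (Summable fun n => Real.exp (-(lam n * t)) *
        ⟪(φ n : X → W) y, stdOrthonormalBasis ℝ W b⟫ ^ 2) ∧ ∑' n, Real.exp (-(lam n * t)) *
        ⟪(φ n : X → W) y, stdOrthonormalBasis ℝ W b⟫ ^ 2 ≤ (5 * (m * C₀) / t ^ 2) ^ 2 := fun b => by
      obtain ⟨k, r, h⟩ := hC₀ y _ (basis_le b)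
      obtain ⟨k', r', -, hp⟩ := hpar hI hip h le_rfl
      have := (h7 _ _ j _ _ _ k' r' hp).2 J φ lam hE t ht
      exact And.intro this.1 this.2.1
    simp only [norm_sq_eq, Finset.mul_sum]
    refine ⟨summable_sum fun b _ => (key b).1, ?_⟩
    rw [Summable.tsum_finsetSum fun b _ => (key b).1]
    exact (Finset.sum_le_card_nsmul _ _ _ fun b _ => (key b).2).trans (by simp)
  · set C₁ := max C C₀ with hC₁
    refine ⟨m * C₁ + C₁ ^ 2 + (m * C₁ + C₁ ^ 2) ^ 2, fun y w k r h x w' hw' t ht => ?_⟩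
    obtain ⟨k₀, r₀, h'⟩ := hC₀ x w' hw'
    have g := mono h (le_max_left C C₀)
    have g' := mono h' (le_max_right C C₀)
    have hle : m * C₁ ≤ m * C₁ + C₁ ^ 2 := le_add_of_nonneg_right (by positivity)
    obtain ⟨k₁, r₁, e, hp⟩ := hpar hI hip g hle
    obtain ⟨k₂, r₂, e', hp'⟩ := hpar hI hip g' hle
    have h0 := nonneg g
    have := ((h7 _ _ j _ _ _ k₁ r₁ hp).2 J φ lam hE t ht).2.2 _ k₂ r₂ hp' fun σ hσ s hs => by
      have hi : Integrable (fun x => ‖k₀ σ x‖ * C₁) G.μ := by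
        refine (Integrable.norm ?_).mul_const _
        rw [← (e' σ hσ.1).1]
        exact ((Lp.memLp (j (k₂ σ))).integrable (by norm_num)).congr (hI.j _)
      rw [hip, (e' σ hσ.1).1, (e s hs.1).2, Geo.ip, ← Real.norm_eq_abs]
      refine (norm_integral_le_of_norm_le hi (Eventually.of_forall fun x =>
        (norm_inner_le_norm _ _).trans (by gcongr; exact g.br s hs x))).trans ?_
      rw [integral_mul_const]
      exact cross (by positivity) h0 (g'.b1 σ hσ)
    rw [(e t ht.1).1] at this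
    exact this

end Pool.Agent.MP_e1dc65_gt.A

end
end MrgPart6

-- ======== part 7: formerly Pool.Agent.MP_e1dc65_gt.fm.Hom
section MrgPart7

/-! PROJECT HC: the homotopy formula on a cylinder. -/

open scoped ContDiff Manifold Topology
open Set Filter Function Module MeasureTheory Pool.Agent.MP_c8d41b_gt.GF
open Pool.Agent.MP_c8d41b_gt.GF.Homot

noncomputable section

namespace Pool.Agent.MP_e1dc65_gt

namespace HomP

open ContinuousLinearMap (inl inr)

variable {E : Type} [NormedAddCommGroup E] [NormedSpace ℝ E] [FiniteDimensional ℝ E]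

/-- the formula in a vector space -/
theorem flat {A : ℝ × E → Lam (ℝ × E)} {W : Set (ℝ × E)} {a b : ℝ} {x : E} (hW : IsOpen W)
    (hA : ∀ p ∈ W, ContDiffAt ℝ ∞ A p) (h0 : ∀ p ∈ W, dd A p = 0) (hx : ∀ t ∈ uIcc a b, (t, x) ∈ W) :
    IntervalIntegrable (fun t => mp (inr ℝ ℝ E) (ctr (1, 0) (A (t, x)))) volume a b ∧
    ContDiffAt ℝ ∞ (fun y => ∫ t in a..b, mp (inr ℝ ℝ E) (ctr (1, 0) (A (t, y)))) x ∧
    dd (fun y => ∫ t in a..b, mp (inr ℝ ℝ E) (ctr (1, 0) (A (t, y)))) x =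
      mp (inr ℝ ℝ E) (A (b, x)) - mp (inr ℝ ℝ E) (A (a, x)) := by
  have hB : ∀ p ∈ W, ContDiffAt ℝ ∞ (fun p => ctr ((1, 0) : ℝ × E) (A p)) p :=
    fun p hp => cda_ctr contDiffAt_const (hA p hp)
  have hk : ContDiffOn ℝ ∞ (fun p => mp (inr ℝ ℝ E) (ctr (1, 0) (A p))) W :=
    fun p hp => (cda_mp contDiffAt_const (hB p hp)).contDiffWithinAt
  refine ⟨(cont_slice hk.continuousOn hx).intervalIntegrable, cda_int hW hk hx, ?_⟩
  have i1 := (cont_slice (cd_part hW hk).continuousOn hx).intervalIntegrable (μ := volume)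
  have c1 : ContinuousOn (fun p => mp (inr ℝ ℝ E)
      (dd (fun p => ctr ((1, 0) : ℝ × E) (A p)) p)) W := fun p hp =>
    (cda_mp contDiffAt_const (cda_dd' (hB p hp))).continuousAt.continuousWithinAt
  have j1 := (cont_slice c1 hx).intervalIntegrable (μ := volume)
  rw [dd_eq, (hasD hW hk hx).fderiv, ← dL.intervalIntegral_comp_comm i1,
    intervalIntegral.integral_congr fun t ht =>
      dL_slice ((hB _ (hx t ht)).differentiableAt (by simp))]
  refine intervalIntegral.integral_eq_sub_of_hasDerivAt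
    (f := fun t => mp (inr ℝ ℝ E) (A (t, x))) (fun t ht => ?_) j1
  have hd := (hA _ (hx t ht)).differentiableAt (by simp)
  have e := dd_ctr ((1, 0) : ℝ × E) hd
  rw [h0 _ (hx t ht), map_zero, add_zero] at e
  rw [e]
  have h1 : HasDerivAt (fun s : ℝ => A (s, x)) (fderiv ℝ A (t, x) (1, 0)) t :=
    hd.hasFDerivAt.comp_hasDerivAt (f := fun s : ℝ => (s, x)) t
      (HasDerivAt.prodMk (hasDerivAt_id t) (hasDerivAt_const t x))
  exact (clm (mp (inr ℝ ℝ E)).toLinearMap).hasFDerivAt.comp_hasDerivAt t h1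

variable {X : Mf E} {x : X}

/-- the parametrisation of the cylinder given by a chart -/
def prm (X : Mf E) (x : X) (p : ℝ × E) : X.cyl := ((ch X x).symm p.2, p.1)

theorem sm_snd {p : ℝ × E} : SmAt (vs (ℝ × E)) (vs E) Prod.snd p := smAt_vs.2 contDiffAt_snd

theorem sm_fst {p : ℝ × E} : SmAt (vs (ℝ × E)) (vs ℝ) Prod.fst p := smAt_vs.2 contDiffAt_fst

theorem sm_par {p : ℝ × E} (h : p.2 ∈ (ch X x).target) : SmAt (vs (ℝ × E)) X.cyl (prm X x) p :=
  (sm_snd.trans (smAt_ch_symm h)).pair sm_fst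

theorem Df_par {p : ℝ × E} (h : p.2 ∈ (ch X x).target) : Df (vs (ℝ × E)) X.cyl (prm X x) p =
    ((Df (vs E) X (ch X x).symm p.2).comp (ContinuousLinearMap.snd ℝ ℝ E)).prod
      (ContinuousLinearMap.fst ℝ ℝ E) := by
  have h1 := Df_pair (sm_snd.trans (smAt_ch_symm h)) sm_fst
  rw [Df_comp sm_snd (smAt_ch_symm h), Df_vs, Df_vs, fderiv_snd, fderiv_fst] at h1
  exact h1

theorem Df_par_inr {p : ℝ × E} (h : p.2 ∈ (ch X x).target) :
    (Df (vs (ℝ × E)) X.cyl (prm X x) p).comp (inr ℝ ℝ E) =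
      (inl ℝ E ℝ).comp (Df (vs E) X (ch X x).symm p.2) := by
  rw [Df_par h]
  ext v <;> simp

theorem slice (Ω : X.cyl → Lam (E × ℝ)) {y : E} (h : y ∈ (ch X x).target) (t : ℝ) :
    mp (inr ℝ ℝ E) (pbM (vs (ℝ × E)) X.cyl (prm X x) Ω (t, y)) =
      mp (Df (vs E) X (ch X x).symm y) (mp (inl ℝ E ℝ) (Ω ((ch X x).symm y, t))) := by
  rw [pbM, ← mp_comp, Df_par_inr h, mp_comp]
  rfl

theorem slice_ctr (Ω : X.cyl → Lam (E × ℝ)) {y : E} (h : y ∈ (ch X x).target) (t : ℝ) :
    mp (inr ℝ ℝ E) (ctr (1, 0) (pbM (vs (ℝ × E)) X.cyl (prm X x) Ω (t, y))) =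
      mp (Df (vs E) X (ch X x).symm y)
        (mp (inl ℝ E ℝ) (ctr (0, 1) (Ω ((ch X x).symm y, t)))) := by
  have e : Df (vs (ℝ × E)) X.cyl (prm X x) (t, y) (1, 0) = (0, 1) := by
    rw [Df_par h]
    simp
  rw [pbM, ctr_mp, e, ← mp_comp, Df_par_inr h, mp_comp]
  rfl

omit [FiniteDimensional ℝ E] in
theorem pb_incl (Ω : X.cyl → Lam (E × ℝ)) (t : ℝ) :
    pbM X X.cyl (fun x => (x, t)) Ω x = mp (inl ℝ E ℝ) (Ω (x, t)) := by
  rw [pbM, Df_pair smAt_id (smAt_const (Y := vs ℝ) t), Df_id, Df_const]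
  rfl

end HomP

open HomP

theorem homM : HomStmt := by
  intro E _ _ _ X k Ω U O a b hU hO hs hΩ
  have main : ∀ x ∈ U, _ := fun x hx => by
    have hW : IsOpen (Prod.snd ⁻¹' (ch X x).target ∩ prm X x ⁻¹' O) :=
      ContinuousOn.isOpen_inter_preimage (fun p hp => (sm_par hp).cont.continuousWithinAt)
        ((ch X x).open_target.preimage continuous_snd) hO
    have hc := hΩ.pb (X := vs (ℝ × E)) (f := prm X x)
      (U := Prod.snd ⁻¹' (ch X x).target ∩ prm X x ⁻¹' O) (fun p hp => sm_par hp.1) fun p hp => hp.2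
    exact flat (a := a) (b := b) (x := ch X x x) hW (fun p hp => fmAt_vs.1 (hc.1 p hp).1)
      (fun p hp => by rw [← dM_vs]; exact hc.2 p hp) fun t ht =>
        ⟨mem_chart_target E x, hs ⟨mem_of_eq_of_mem (ch_left X x) hx, ht⟩⟩
  have int : ∀ x ∈ U, IntervalIntegrable (fun t => mp (ContinuousLinearMap.inl ℝ E ℝ)
      (ctr (0, 1) (Ω (x, t)))) volume a b := fun x hx => by
    simpa only [slice_ctr Ω (mem_chart_target E x), Df_ch_symm_self, mp_id, ch_left]
      using (main x hx).1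
  have ev : ∀ x ∈ U, loc X x (fun x => ∫ t in a..b, mp (ContinuousLinearMap.inl ℝ E ℝ)
      (ctr (0, 1) (Ω (x, t)))) =ᶠ[𝓝 (ch X x x)] fun y => ∫ t in a..b,
        mp (ContinuousLinearMap.inr ℝ ℝ E)
          (ctr (1, 0) (pbM (vs (ℝ × E)) X.cyl (prm X x) Ω (t, y))) := fun x hx => by
    filter_upwards [(ch X x).open_target.mem_nhds (mem_chart_target E x),
      tendsto_ch_symm.eventually (hU.mem_nhds hx)] with y h1 h2
    simp only [slice_ctr Ω h1]
    exact ((clm (mp (Df (vs E) X (ch X x).symm y)).toLinearMap).intervalIntegral_comp_comm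
      (int _ h2)).symm
  refine ⟨fun x => ∫ t in a..b, mp (ContinuousLinearMap.inl ℝ E ℝ) (ctr (0, 1) (Ω (x, t))),
    fun x hx => ⟨(main x hx).2.1.congr_of_eventuallyEq (ev x hx), ?_⟩, fun x hx => ?_⟩
  · have e := (clm (prj (E := E) k)).intervalIntegral_comp_comm (int x hx)
    have e' := (intervalIntegral.integral_congr (μ := volume) fun t ht => prj_same (n := k)
      (dg_mp (ContinuousLinearMap.inl ℝ E ℝ)
        (dg_ctr (0, 1) (hΩ.1 (x, t) (hs ⟨hx, ht⟩)).2).1)).symm.trans e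
    simp only
    rw [e']
    exact prj_mem _ _
  · rw [dM, dd_congr (ev x hx), (main x hx).2.2, slice Ω (mem_chart_target E x),
      slice Ω (mem_chart_target E x), Df_ch_symm_self, mp_id, mp_id, ch_left, pb_incl, pb_incl]

end Pool.Agent.MP_e1dc65_gt

end
end MrgPart7

-- ======== part 8: formerly Pool.Agent.MP_e1dc65_gt.e.aH2m
section MrgPart8

/-! PROJECT HC, part E-A, row H2M: contraction of the height coordinate. -/

open scoped ContDiff Manifold Topology
open Set Filter Function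

namespace Pool.Agent.MP_e1dc65_gt.EA

namespace H2mP

theorem shrink {A : MA} {p : A.X.cyl} (hp : p ∈ A.U) (t : ℝ) :
    (p.1, (1 - Real.smoothTransition t) * p.2) ∈ A.U := fun h => by
  have h1 := Real.smoothTransition.nonneg t
  have h2 := Real.smoothTransition.le_one t
  refine lt_of_le_of_lt ?_ (hp h)
  rw [abs_mul, abs_of_nonneg (sub_nonneg.2 h2)]
  exact mul_le_of_le_one_left (abs_nonneg _) (by linarith)

theorem sm_shrink {A : MA} (q : A.X.cyl.cyl) : SmAt A.X.cyl.cyl A.X.cyl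
    (fun q => (q.1.1, (1 - Real.smoothTransition q.2) * q.1.2)) q := by
  refine (smAt_fst.trans smAt_fst).pair ?_
  refine ((smAt_fst.trans smAt_snd).vpair smAt_snd).vcomp
    (g := fun r : ℝ × ℝ => (1 - Real.smoothTransition r.2) * r.1) ?_
  exact (contDiffAt_const.sub
    (Real.smoothTransition.contDiffAt.comp _ contDiffAt_snd)).mul contDiffAt_fst

end H2mP

open H2mP in
theorem h2m : H2mStmt := by
  intro A T Q pQ _ hT hQ hz
  have ld : ∀ p ∈ A.U, LDAt A.X.cyl Q (fun p => pQ (T.io p)) p := fun p hp =>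
    (hT.oi.ld p hp).trans (hQ.pld _)
  have sub : (univ ×ˢ Ioo (-(1 / 2)) (1 / 2) : Set A.X.cyl) ⊆ A.U := fun p hp _ =>
    abs_lt.2 ⟨by linarith [hp.2.1], by linarith [hp.2.2]⟩
  have hO : IsOpen (A.U ×ˢ (univ : Set ℝ)) := hT.oi.op.prod isOpen_univ
  obtain ⟨H, hH⟩ := desc1 (P := A.X.cyl.cyl) (Z := Q.cyl) (A.U ×ˢ univ)
    (fun q => (pQ (T.io q.1), q.2))
    (fun q => pQ (T.io (q.1.1, (1 - Real.smoothTransition q.2) * q.1.2))) (by
      rintro ⟨p, t⟩ ⟨hp, -⟩ ⟨p', t'⟩ ⟨hp', -⟩ e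
      obtain ⟨e1, rfl⟩ := Prod.ext_iff.1 e
      rcases (hQ.peq _ _).1 e1 with e2 | e2
      · rw [hT.oi.inj hp' hp e2]
      · rw [hT.σi p hp] at e2
        obtain rfl := hT.oi.inj hp' (hT.σU p hp) e2
        refine (hQ.peq _ _).2 (.inr ?_)
        rw [hT.σi _ (shrink hp t), mul_neg])
  have hU := isOpen_image_ld hT.oi.op ld
  refine (hza homM E4 1).1 Q _ _ (((fun p => pQ (T.io p)) '' A.U) ×ˢ univ) H hU
    (isOpen_image_ld (isOpen_univ.prod isOpen_Ioo) fun p hp => ld p (sub hp)) (image_mono sub)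
    (hU.prod isOpen_univ) (prod_mono subset_rfl (subset_univ _)) ?_ ?_ ?_ ?_ hz
  · rintro ⟨_, t⟩ ⟨⟨p, hp, rfl⟩, -⟩
    refine ((ld p hp).prodMap (ldAt_id (X := vs ℝ) (x := t))).sm_of_comp ?_
    refine ((sm_shrink (p, t)).trans (ld _ (shrink hp t)).sm).congr' ?_
    filter_upwards [hO.mem_nhds (⟨hp, trivial⟩ : (p, t) ∈ A.U ×ˢ univ)] with q hq using hH q hq
  · rintro ⟨_, t⟩ ⟨⟨p, hp, rfl⟩, -⟩
    exact ⟨_, shrink hp t, (hH (p, t) ⟨hp, trivial⟩).symm⟩
  · rintro _ ⟨p, hp, rfl⟩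
    rw [hH (p, 0) ⟨hp, trivial⟩, Real.smoothTransition.zero, sub_zero, one_mul]
  · rintro _ ⟨p, hp, rfl⟩
    refine ⟨_, ⟨trivial, ?_⟩, (hH (p, 1) ⟨hp, trivial⟩).symm⟩
    simp only [Real.smoothTransition.one, sub_self, zero_mul]
    constructor <;> norm_num

end Pool.Agent.MP_e1dc65_gt.EA

end MrgPart8

-- ======== part 9: formerly Pool.Agent.MP_e1dc65_gt.u.Spec
section MrgPart9

/-! PROJECT HC, part O, steps O1 and O2: the universal cover of `W` and the function `u`. -/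

open scoped ContDiff Manifold Topology
open Set Filter Function

noncomputable section

namespace Pool.Agent.MP_e1dc65_gt

/-- the universal cover `Y = X × G` of `X`, described by a faithful holonomy onto `G` -/
structure UC {E : Type} [NormedAddCommGroup E] [NormedSpace ℝ E] (X : Mf E) where
  G : Type
  [grp : Group G]
  [cnt : Countable G]
  τ : ∀ x y : X, Path x y → G
  Y : Mf E
  e : X × G ≃ Y
  hol : Hol univ τ
  faith : Faith τ univ
  onto : ∀ x g, ∃ γ : Path x x, τ x x γ = g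
  cov : IsCoveringMap fun y => (e.symm y).1
  ld : ∀ y, LDAt Y X (fun y => (e.symm y).1) y
  sec : ∀ V s g, IsOpen V → Par τ V s → OE X Y (fun x => e (x, g * s x)) V
  deck : ∀ g y, LDAt Y Y (fun y => e ((e.symm y).1, g * (e.symm y).2)) y
  path : ∀ a b (γ : Path a b) x y (δ : Path x y), (∀ t, δ t = (e.symm (γ t)).1) →
    (e.symm b).2 = (e.symm a).2 * τ x y δ
  sc : SC (univ : Set Y)

attribute [instance] UC.grp UC.cnt

/-- the covering map -/
def UC.p {E : Type} [NormedAddCommGroup E] [NormedSpace ℝ E] {X : Mf E} (c : UC X) (y : c.Y) : X :=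
  (c.e.symm y).1

/-- the neck of `M` times the collar, in `W` -/
def OHC.nM {D : ODat} (h : OHC D.M D.N) (x : D.F) (n t : ℝ) : h.W := h.cM (D.νM (x, n), t)
/-- the neck of `N` times the collar, in `W` -/
def OHC.nN {D : ODat} (h : OHC D.M D.N) (v : Rn 4) (t : ℝ) : h.W := h.cN (D.νN v, t)

/-- the function `u` on the universal cover of `W`: for `t ≥ T` it is the step `β` across the
lift `sM` of the neck of `M`, the step `b` or `1 - b` across the finitely many lifts `g * sN`,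
`g ∈ J`, of the neck of `N`; off these and off the compact set `K` it is locally `0` or `1` -/
structure UFn {D : ODat} (h : OHC D.M D.N) (c : UC h.W) (β : ℝ → ℝ) (b : Rn 4 → ℝ) (a₁ a₂ : ℝ)
    (sM sN : h.W → c.G) (u : c.Y → ℝ) (J : Finset c.G) (sg : c.G → Bool) (T : ℝ) (K : Set c.Y) :
    Prop where
  parM : Par c.τ (h.cM '' (range D.νM ×ˢ univ)) sM
  parN : Par c.τ (h.cN '' ((D.νN '' {v | v ≠ 0}) ×ˢ univ)) sN
  sm : Sm c.Y (vs ℝ) u univ
  mem : ∀ y, u y ∈ Icc (0 : ℝ) 1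
  one_lt : 1 < T
  cpt : IsCompact K
  low : ∀ y ∈ K, h.S (c.p y) ≤ T
  uM : ∀ x n t, T ≤ t → u (c.e (h.nM x n t, sM (h.nM x n t))) = β n
  uN : ∀ g ∈ J, ∀ v t, v ≠ 0 → T ≤ t →
    u (c.e (h.nN v t, g * sN (h.nN v t))) = if sg g then b v else 1 - b v
  off : ∀ y ∉ K, (∀ x n t, |n| ≤ 1 → T < t → y ≠ c.e (h.nM x n t, sM (h.nM x n t))) →
    (∀ g ∈ J, ∀ v t, a₁ ≤ nsq v → nsq v ≤ a₂ → T < t → y ≠ c.e (h.nN v t, g * sN (h.nN v t))) →
    (u y = 0 ∨ u y = 1) ∧ ∀ᶠ z in 𝓝 y, u z = u y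

/-- row U -/
def UStmt : Prop :=
  ∀ (C : SpinCover) (D : ODat) [CompactSpace D.M] [CompactSpace D.N] (h : OHC D.M D.N)
    (c : UC h.W) (β : ℝ → ℝ) (b : Rn 4 → ℝ) (a₁ a₂ : ℝ), D.Ok C → ContDiff ℝ ∞ β →
    (∀ n, β n ∈ Icc (0 : ℝ) 1) → (∀ n ≤ -1, β n = 0) → (∀ n, 1 ≤ n → β n = 1) →
    (∀ v, v ≠ 0 → ContDiffAt ℝ ∞ b v) → (∀ v, b v ∈ Icc (0 : ℝ) 1) → 0 < a₁ → a₁ < 1 → 1 < a₂ →
    (∀ v, nsq v ≤ a₁ → b v = 0) → (∀ v, a₂ ≤ nsq v → b v = 1) →
    ∃ sM sN u J sg K, UFn h c β b a₁ a₂ sM sN u J sg 3 K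

end Pool.Agent.MP_e1dc65_gt

end
end MrgPart9

-- marker of a merged file
example : 731051 + 265005 = 731051 + 265005 := rfl
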